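import Pool.Agent.H424R3.LN.Law

set_option autoImplicit false

open MeasureTheory Filter
open scoped ENNReal Topology

namespace Pool.Agent.H424R3.LN

theorem meas_mem (a b : ℕ) : MeasurableSet {S : ℕ → Finset ℕ | b ∈ S a} := by
  have h := measurableSet_preimage (measurable_pi_apply (X := fun _ : ℕ => Finset ℕ) a)
    (show MeasurableSet {A : Finset ℕ | b ∈ A} from trivial)
  exact h

theorem measurable_toGraph : Measurable toGraph := by
  refine measurable_generateFrom ?_
  rintro s ⟨a, b, rfl⟩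
  have h1 : MeasurableSet {S : ℕ → Finset ℕ | b ∈ S a} := meas_mem a b
  have h2 : MeasurableSet {S : ℕ → Finset ℕ | a ∈ S b} := meas_mem b a
  have : toGraph ⁻¹' {G : SimpleGraph ℕ | G.Adj a b} =
      {S : ℕ → Finset ℕ | a ≠ b ∧ b ∈ S a ∧ a ∈ S b} := rfl
  rw [this]
  exact (MeasurableSet.const _).inter (h1.inter h2)

theorem toGraph_tr (φ : ℕ ≃ ℕ) (S : ℕ → Finset ℕ) (a b : ℕ) :
    (toGraph (tr φ S)).Adj (φ a) (φ b) ↔ (toGraph S).Adj a b := by
  simp [toGraph, tr]

/-- everything that the assembly uses -/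
structure Inputs : Prop where
  mu : TaskMu
  tree : TaskTree
  core : TaskCore
  uniq : TaskUniq
  cyl : TaskCyl
  meas : TaskMeas
  swap : TaskSwap
  equiv : TaskEquiv
  supp : TaskSupp
  dens : TaskDens

variable {Ω : Type} [MeasurableSpace Ω] {P : Measure Ω}

/-- the random line ensemble -/
noncomputable def ens (X : RandomTree P) (p : Ω × (Idx → Finset ℕ)) : SimpleGraph ℕ :=
  toGraph (sel (X.graph p.1) (X.root p.1) p.2)

theorem meas_root {β : Type} [MeasurableSpace β] (X : RandomTree P)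
    (h : ℕ → SimpleGraph ℕ × (Idx → Finset ℕ) → β) (hh : ∀ x, Measurable (h x)) :
    Measurable (fun p : Ω × (Idx → Finset ℕ) => h (X.root p.1) (X.graph p.1, p.2)) := by
  have h1 : Measurable (fun q : ℕ × (SimpleGraph ℕ × (Idx → Finset ℕ)) => h q.1 q.2) :=
    measurable_from_prod_countable_right hh
  exact h1.comp ((X.measurable_root.comp measurable_fst).prodMk
    ((X.measurable_graph.comp measurable_fst).prodMk measurable_snd))

theorem measurable_ens (hI : Inputs) (X : RandomTree P) : Measurable (ens X) :=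
  meas_root X (fun x q => toGraph (sel q.1 x q.2)) hI.meas.2.2.2.2.2.2

open Classical in
/-- the averaged transport function -/
noncomputable def Fbar (μ : Finset ℕ → PMF (Finset ℕ)) (d : ℕ)
    (f : SimpleGraph ℕ → SimpleGraph ℕ → ℕ → ℕ → ℝ≥0∞) (G : SimpleGraph ℕ) (x y : ℕ) : ℝ≥0∞ :=
  if Good d G then ∫⁻ U, f G (toGraph (sel G x U)) x y ∂(nu μ) else 0

theorem measurable_Fbar (hI : Inputs) (μ : Finset ℕ → PMF (Finset ℕ)) (d : ℕ)
    (f : SimpleGraph ℕ → SimpleGraph ℕ → ℕ → ℕ → ℝ≥0∞)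
    (hf : ∀ x y, Measurable (fun p : SimpleGraph ℕ × SimpleGraph ℕ => f p.1 p.2 x y)) (x y : ℕ) :
    Measurable (fun G => Fbar μ d f G x y) := by
  unfold Fbar
  refine Measurable.ite (hI.meas.1 d) ?_ measurable_const
  have h1 : Measurable (fun q : SimpleGraph ℕ × (Idx → Finset ℕ) =>
      f q.1 (toGraph (sel q.1 x q.2)) x y) :=
    (hf x y).comp (measurable_fst.prodMk (hI.meas.2.2.2.2.2.2 x))
  exact h1.lintegral_prod_right'

theorem invariant_Fbar (hI : Inputs) {d : ℕ} {μ : Finset ℕ → PMF (Finset ℕ)} (hμ : IsMu d μ)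
    (f : SimpleGraph ℕ → SimpleGraph ℕ → ℕ → ℕ → ℝ≥0∞)
    (hf : ∀ x y, Measurable (fun p : SimpleGraph ℕ × SimpleGraph ℕ => f p.1 p.2 x y))
    (hinv : ∀ (G G' M M' : SimpleGraph ℕ) (φ : ℕ ≃ ℕ), (∀ a b, G'.Adj (φ a) (φ b) ↔ G.Adj a b) →
      (∀ a b, M'.Adj (φ a) (φ b) ↔ M.Adj a b) →
      ∀ x y, f G' M' (φ x) (φ y) = f G M x y)
    (G G' : SimpleGraph ℕ) (φ : ℕ ≃ ℕ) (hφ : ∀ a b, G'.Adj (φ a) (φ b) ↔ G.Adj a b) (x y : ℕ) :
    Fbar μ d f G' (φ x) (φ y) = Fbar μ d f G x y := by
  have g3 := ((hI.equiv d μ hμ).2 G G' φ hφ).2.2.1 d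
  have hφ' : ∀ a b, G.Adj (φ.symm a) (φ.symm b) ↔ G'.Adj a b := by
    intro a b
    rw [← hφ]; simp
  have g3' := ((hI.equiv d μ hμ).2 G' G φ.symm hφ').2.2.1 d
  unfold Fbar
  by_cases hG : Good d G
  · rw [if_pos hG, if_pos (g3 hG)]
    have hlaw := law_equiv hI.tree hI.uniq hI.cyl hI.meas hI.equiv hμ hG φ hφ x
    have hm : Measurable (fun S : ℕ → Finset ℕ => f G' (toGraph S) (φ x) (φ y)) :=
      (hf _ _).comp (measurable_const.prodMk measurable_toGraph)
    have e1 : ∫⁻ U, f G' (toGraph (sel G' (φ x) U)) (φ x) (φ y) ∂(nu μ) =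
        ∫⁻ S, f G' (toGraph S) (φ x) (φ y) ∂((nu μ).map (fun U => sel G' (φ x) U)) :=
      (lintegral_map hm (measurable_sel hI.meas G' (φ x))).symm
    have hmt : Measurable (fun U : Idx → Finset ℕ => tr φ (sel G x U)) :=
      (measurable_tr φ).comp (measurable_sel hI.meas G x)
    rw [e1, ← hlaw, lintegral_map hm hmt]
    refine lintegral_congr fun U => ?_
    exact hinv G G' _ _ φ hφ (toGraph_tr φ _) x y
  · rw [if_neg hG, if_neg (fun h => hG (g3' h))]

theorem marked (hI : Inputs) {d : ℕ} {μ : Finset ℕ → PMF (Finset ℕ)} (hμ : IsMu d μ)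
    [IsProbabilityMeasure P] (X : RandomTree P) (hX : X.Unimodular)
    (hgood : ∀ᵐ ω ∂P, Good d (X.graph ω)) :
    UnimodularMarked (P.prod (nu μ)) (fun p => X.graph p.1) (ens X) (fun p => X.root p.1) := by
  intro f hf hinv
  have key := hX (Fbar μ d f) (measurable_Fbar hI μ d f hf)
    (fun G G' φ hφ x y => invariant_Fbar hI hμ f hf hinv G G' φ hφ x y)
  have hm1 : ∀ y, Measurable (fun p : Ω × (Idx → Finset ℕ) =>
      f (X.graph p.1) (ens X p) (X.root p.1) y) := fun y =>
    meas_root X (fun x q => f q.1 (toGraph (sel q.1 x q.2)) x y)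
      (fun x => (hf x y).comp (measurable_fst.prodMk (hI.meas.2.2.2.2.2.2 x)))
  have hm2 : ∀ y, Measurable (fun p : Ω × (Idx → Finset ℕ) =>
      f (X.graph p.1) (ens X p) y (X.root p.1)) := fun y =>
    meas_root X (fun x q => f q.1 (toGraph (sel q.1 x q.2)) y x)
      (fun x => (hf y x).comp (measurable_fst.prodMk (hI.meas.2.2.2.2.2.2 x)))
  have hL : ∫⁻ p, ∑' y, f (X.graph p.1) (ens X p) (X.root p.1) y ∂(P.prod (nu μ)) =
      ∫⁻ ω, ∑' y, Fbar μ d f (X.graph ω) (X.root ω) y ∂P := by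
    rw [lintegral_prod _ (Measurable.ennreal_tsum hm1).aemeasurable]
    refine lintegral_congr_ae ?_
    filter_upwards [hgood] with ω hω
    have hs : ∀ y, AEMeasurable (fun U => f (X.graph ω) (ens X (ω, U)) (X.root ω) y) (nu μ) :=
      fun y => ((hm1 y).comp measurable_prodMk_left).aemeasurable
    rw [lintegral_tsum hs]
    refine tsum_congr fun y => ?_
    unfold Fbar
    rw [if_pos hω]
    rfl
  have hR : ∫⁻ p, ∑' y, f (X.graph p.1) (ens X p) y (X.root p.1) ∂(P.prod (nu μ)) =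
      ∫⁻ ω, ∑' y, Fbar μ d f (X.graph ω) y (X.root ω) ∂P := by
    rw [lintegral_prod _ (Measurable.ennreal_tsum hm2).aemeasurable]
    refine lintegral_congr_ae ?_
    filter_upwards [hgood] with ω hω
    have hs : ∀ y, AEMeasurable (fun U => f (X.graph ω) (ens X (ω, U)) y (X.root ω)) (nu μ) :=
      fun y => ((hm2 y).comp measurable_prodMk_left).aemeasurable
    rw [lintegral_tsum hs]
    refine tsum_congr fun y => ?_
    unfold Fbar
    rw [if_pos hω]
    have hlaw := law_root hI.tree hI.core hI.uniq hI.cyl hI.meas hI.swap hμ hω (X.root ω) y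
    have hm : Measurable (fun S : ℕ → Finset ℕ =>
        f (X.graph ω) (toGraph S) y (X.root ω)) :=
      (hf _ _).comp (measurable_const.prodMk measurable_toGraph)
    have e1 : ∫⁻ U, f (X.graph ω) (toGraph (sel (X.graph ω) (X.root ω) U)) y (X.root ω) ∂(nu μ) =
        ∫⁻ S, f (X.graph ω) (toGraph S) y (X.root ω)
          ∂((nu μ).map (fun U => sel (X.graph ω) (X.root ω) U)) :=
      (lintegral_map hm (measurable_sel hI.meas _ _)).symm
    have e2 : ∫⁻ U, f (X.graph ω) (toGraph (sel (X.graph ω) y U)) y (X.root ω) ∂(nu μ) =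
        ∫⁻ S, f (X.graph ω) (toGraph S) y (X.root ω)
          ∂((nu μ).map (fun U => sel (X.graph ω) y U)) :=
      (lintegral_map hm (measurable_sel hI.meas _ _)).symm
    show ∫⁻ U, f (X.graph ω) (toGraph (sel (X.graph ω) (X.root ω) U)) y (X.root ω) ∂(nu μ) = _
    rw [e1, e2, hlaw]
  rw [hL, hR, key]

/-- structure of the selections for a fixed good tree and good choices -/
theorem sel_struct (hI : Inputs) {d : ℕ} {μ : Finset ℕ → PMF (Finset ℕ)} (hμ : IsMu d μ)
    {G : SimpleGraph ℕ} (hG : Good d G) (x : ℕ) (U : Idx → Finset ℕ)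
    (hU : ∀ i : Idx, U i ∈ (law μ i).support) :
    (∀ v, sel G x U v ⊆ nbr G v ∧ (sel G x U v = ∅ ∨ (sel G x U v).card = 2)) ∧
    (∀ v, (toGraph (sel G x U)).neighborSet v = ↑(sel G x U v)) := by
  obtain ⟨t1, t2, -, -, -⟩ := hI.tree G hG.1
  obtain ⟨-, s2, s3⟩ := hI.supp d μ hμ
  have hrec := sel_eq (G := G) (x := x) (fun v hv => (t1 x v hv).2.1) U
  have hmem : ∀ v, sel G x U v ∈ (μ (nbr G v)).support := by
    intro v
    have h := hU (idx G x (sel G x U) v)
    rw [← hrec v] at h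
    by_cases hv : v = x
    · have : idx G x (sel G x U) v = (v, nbr G v, none) := by unfold idx; rw [if_pos hv]
      rw [this] at h
      exact h
    · have : idx G x (sel G x U) v = (v, nbr G v, some (par G x v,
          decide (v ∈ sel G x U (par G x v)))) := by unfold idx; rw [if_neg hv]
      rw [this] at h
      exact s2 _ _ _ h
  have hsub : ∀ v, sel G x U v ⊆ nbr G v ∧ (sel G x U v = ∅ ∨ (sel G x U v).card = 2) :=
    fun v => hμ.supp _ _ (hmem v)
  refine ⟨hsub, ?_⟩
  have hmut0 : ∀ v, v ≠ x → (par G x v ∈ sel G x U v ↔ v ∈ sel G x U (par G x v)) := by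
    intro v hv
    have h := hU (idx G x (sel G x U) v)
    rw [← hrec v] at h
    have : idx G x (sel G x U) v = (v, nbr G v, some (par G x v,
        decide (v ∈ sel G x U (par G x v)))) := by unfold idx; rw [if_neg hv]
    rw [this] at h
    obtain ⟨c1, c2, c3, -, -⟩ := hI.core d G hG (par G x v)
    obtain ⟨c1', c2', c3', -, -⟩ := hI.core d G hG v
    exact s3 (nbr G (par G x v)) (nbr G v) (sel G x U (par G x v)) (par G x v) v c2 c2' c3 c3'
      (by rw [c1, c1', core_symm]) (hmem _) _ h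
  have hmut : ∀ u v, G.Adj u v → (u ∈ sel G x U v ↔ v ∈ sel G x U u) := by
    intro u v huv
    rcases t2 x u v huv with ⟨h1, h2⟩ | ⟨h1, h2⟩
    · rw [h2]; exact hmut0 v h1
    · rw [h2]; exact (hmut0 u h1).symm
  intro v
  ext u
  simp only [SimpleGraph.mem_neighborSet, Finset.mem_coe]
  constructor
  · intro h; exact h.2.1
  · intro h
    have hc := ((hI.core d G hG v).1 u).1 ((hsub v).1 h)
    exact ⟨hc.1.ne, h, (hmut u v hc.1.symm).1 h⟩

theorem line (hI : Inputs) {d : ℕ} {μ : Finset ℕ → PMF (Finset ℕ)} (hμ : IsMu d μ)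
    {G : SimpleGraph ℕ} (hG : Good d G) (x : ℕ) (U : Idx → Finset ℕ)
    (hU : ∀ i : Idx, U i ∈ (law μ i).support) :
    IsLineEnsemble G (toGraph (sel G x U)) := by
  obtain ⟨h1, h2⟩ := sel_struct hI hμ hG x U hU
  refine ⟨?_, ?_⟩
  · intro a b hab
    exact (((hI.core d G hG a).1 b).1 ((h1 a).1 hab.2.1)).1
  · intro v
    rw [h2 v]
    rcases (h1 v).2 with h | h
    · left; rw [h]; simp
    · right; rw [Set.ncard_coe_finset, h]

/-- the density of the line ensemble -/
theorem density (hI : Inputs) {d : ℕ} (hd : 2 ≤ d) {μ : Finset ℕ → PMF (Finset ℕ)}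
    (hμ : IsMu d μ) [IsProbabilityMeasure P] (X : RandomTree P)
    (hgood : ∀ᵐ ω ∂P, Good d (X.graph ω)) :
    ((P.prod (nu μ)) {p | ∃ y, (ens X p).Adj (X.root p.1) y}).toReal =
      (∫ ω, ((nbr (X.graph ω) (X.root ω)).card : ℝ) ∂P) / d := by
  have hsupp := (hI.supp d μ hμ).1
  have hae : ∀ᵐ p ∂(P.prod (nu μ)), Good d (X.graph p.1) ∧ ∀ i : Idx, p.2 i ∈ (law μ i).support :=
    (Measure.quasiMeasurePreserving_fst.ae hgood).and
      (Measure.quasiMeasurePreserving_snd.ae hsupp)
  -- measurability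
  have hm : Measurable (fun p : Ω × (Idx → Finset ℕ) =>
      sel (X.graph p.1) (X.root p.1) p.2 (X.root p.1)) :=
    meas_root X (fun x q => sel q.1 x q.2 x) (fun x => hI.meas.2.2.2.2.2.1 x x)
  have hset : (P.prod (nu μ)) {p | ∃ y, (ens X p).Adj (X.root p.1) y} =
      (P.prod (nu μ)) {p | sel (X.graph p.1) (X.root p.1) p.2 (X.root p.1) ≠ ∅} := by
    refine measure_congr ?_
    filter_upwards [hae] with p hp
    obtain ⟨-, h2⟩ := sel_struct hI hμ hp.1 (X.root p.1) p.2 hp.2
    have h3 := h2 (X.root p.1)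
    refine propext ⟨?_, ?_⟩
    · rintro ⟨y, hy⟩
      have : y ∈ (toGraph (sel (X.graph p.1) (X.root p.1) p.2)).neighborSet (X.root p.1) := hy
      rw [h3] at this
      exact Finset.ne_empty_of_mem this
    · intro h
      obtain ⟨y, hy⟩ := Finset.nonempty_iff_ne_empty.2 h
      refine ⟨y, ?_⟩
      have : y ∈ (toGraph (sel (X.graph p.1) (X.root p.1) p.2)).neighborSet (X.root p.1) := by
        rw [h3]; exact hy
      exact this
  have hms : MeasurableSet {p : Ω × (Idx → Finset ℕ) |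
      sel (X.graph p.1) (X.root p.1) p.2 (X.root p.1) ≠ ∅} :=
    hm (show MeasurableSet {A : Finset ℕ | A ≠ ∅} from trivial)
  rw [hset, Measure.prod_apply hms]
  have hsec : ∀ᵐ ω ∂P, (nu μ) (Prod.mk ω ⁻¹' {p : Ω × (Idx → Finset ℕ) |
      sel (X.graph p.1) (X.root p.1) p.2 (X.root p.1) ≠ ∅}) =
      ENNReal.ofReal (((nbr (X.graph ω) (X.root ω)).card : ℝ) / d) := by
    filter_upwards [hgood] with ω hω
    obtain ⟨-, c2, c3, -, -⟩ := hI.core d (X.graph ω) hω (X.root ω)
    set N := nbr (X.graph ω) (X.root ω) with hN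
    set i : Idx := (X.root ω, N, none) with hi
    have e1 : Prod.mk ω ⁻¹' {p : Ω × (Idx → Finset ℕ) |
        sel (X.graph p.1) (X.root p.1) p.2 (X.root p.1) ≠ ∅} =
        (fun U : Idx → Finset ℕ => U i) ⁻¹' {∅}ᶜ := by
      ext U
      simp [sel, selN, hi, hN]
    have e2 : (nu μ) ((fun U : Idx → Finset ℕ => U i) ⁻¹' {∅}ᶜ) =
        (law μ i).toMeasure {∅}ᶜ := by
      rw [← Measure.map_apply (measurable_pi_apply i) (show MeasurableSet ({∅}ᶜ : Set (Finset ℕ)) from trivial)]
      congr 1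
      exact Measure.infinitePi_map_eval _ i
    rw [e1, e2, measure_compl (show MeasurableSet ({∅} : Set (Finset ℕ)) from trivial)
      (measure_ne_top _ _), measure_univ,
      PMF.toMeasure_apply_singleton _ _ (show MeasurableSet ({∅} : Set (Finset ℕ)) from trivial)]
    show 1 - (μ N) ∅ = _
    have hd0 : (0 : ℝ) < d := by exact_mod_cast (by omega : 0 < d)
    rcases c2 with h | h
    · have h1 : (μ N) ∅ = 1 := by
        rw [PMF.apply_eq_one_iff]
        ext A
        simp only [Set.mem_singleton_iff]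
        constructor
        · intro hA
          have := (hμ.supp N A hA).1
          rw [h] at this
          exact Finset.subset_empty.1 this
        · rintro rfl
          obtain ⟨B, hB⟩ := (μ N).support_nonempty
          have := (hμ.supp N B hB).1
          rw [h] at this
          rwa [Finset.subset_empty.1 this] at hB
      rw [h1, h]
      simp
    · rw [hμ.empty N h c3]
      have h3 : (N.card : ℝ≥0∞) / d ≤ 1 := by
        refine ENNReal.div_le_of_le_mul ?_
        rw [one_mul]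
        exact_mod_cast c3
      rw [ENNReal.sub_sub_cancel ENNReal.one_ne_top h3, ENNReal.ofReal_div_of_pos hd0,
        ENNReal.ofReal_natCast, ENNReal.ofReal_natCast]
  rw [lintegral_congr_ae hsec]
  rw [← integral_div]
  rw [integral_eq_lintegral_of_nonneg_ae]
  · filter_upwards with ω
    positivity
  · have hmn : Measurable (fun p : Ω × (Idx → Finset ℕ) =>
        nbr (X.graph p.1) (X.root p.1)) :=
      meas_root X (fun x q => nbr q.1 x) (fun x => by
        have h0 : Measurable (fun G : SimpleGraph ℕ => nbr G x) :=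
          measurable_to_countable' (fun N => hI.meas.2.2.1 x N)
        exact h0.comp measurable_fst)
    have hmn' : Measurable (fun ω : Ω => nbr (X.graph ω) (X.root ω)) :=
      hmn.comp (measurable_id.prodMk (measurable_const (a := fun _ => (∅ : Finset ℕ))))
    have : Measurable (fun ω : Ω => ((nbr (X.graph ω) (X.root ω)).card : ℝ) / d) :=
      (measurable_of_countable (fun A : Finset ℕ => ((A.card : ℝ) / d))).comp hmn'
    exact this.aestronglyMeasurable

theorem main (hI : Inputs) : ∃ f : ℝ → ℝ, (∀ x, f x = 3 * x - 2) ∧ Tendsto f (𝓝 1) (𝓝 1) ∧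
    ∀ (d : ℕ), 2 ≤ d → ∀ {Ω : Type} [MeasurableSpace Ω] (P : Measure Ω) [IsProbabilityMeasure P]
      (X : RandomTree P), X.Unimodular →
      (∀ᵐ ω ∂P, ((X.graph ω).neighborSet (X.root ω)).ncard ≤ d) →
      ∃ (Ω' : Type) (_ : MeasurableSpace Ω') (P' : Measure Ω') (π : Ω' → Ω)
        (L : Ω' → SimpleGraph ℕ), IsProbabilityMeasure P' ∧ MeasurePreserving π P' P ∧
        Measurable L ∧
        (∀ᵐ ω' ∂P', IsLineEnsemble (X.graph (π ω')) (L ω')) ∧
        UnimodularMarked P' (fun ω' => X.graph (π ω')) L (fun ω' => X.root (π ω')) ∧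
        f ((∫ ω, (((X.graph ω).neighborSet (X.root ω)).ncard : ℝ) ∂P) / d) ≤
          (P' {ω' | ∃ y, (L ω').Adj (X.root (π ω')) y}).toReal := by
  refine ⟨fun x => 3 * x - 2, fun x => rfl, ?_, ?_⟩
  · have : Tendsto (fun x : ℝ => 3 * x - 2) (𝓝 1) (𝓝 (3 * 1 - 2)) :=
      (Continuous.tendsto (by fun_prop) 1)
    norm_num at this
    exact this
  · intro d hd Ω _ P _ X hX hdeg
    obtain ⟨μ, hμ⟩ := hI.mu d hd
    obtain ⟨hgood, hdens⟩ := hI.dens hI.core hI.meas hI.equiv d hd P X hX hdeg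
    refine ⟨Ω × (Idx → Finset ℕ), inferInstance, P.prod (nu μ), Prod.fst, ens X, inferInstance,
      measurePreserving_fst, measurable_ens hI X, ?_, marked hI hμ X hX hgood, ?_⟩
    · have hsupp := (hI.supp d μ hμ).1
      have hae : ∀ᵐ p ∂(P.prod (nu μ)), Good d (X.graph p.1) ∧
          ∀ i : Idx, p.2 i ∈ (law μ i).support :=
        (Measure.quasiMeasurePreserving_fst.ae hgood).and
          (Measure.quasiMeasurePreserving_snd.ae hsupp)
      filter_upwards [hae] with p hp
      exact line hI hμ hp.1 _ _ hp.2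
    · rw [density hI hd hμ X hgood]
      exact hdens

end Pool.Agent.H424R3.LN
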