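import Pool.Agent.H424R3.LN.Stmts

set_option autoImplicit false

open MeasureTheory Filter
open scoped ENNReal Topology

namespace Pool.Agent.H424R3.LN

instance nuProb (μ : Finset ℕ → PMF (Finset ℕ)) : IsProbabilityMeasure (nu μ) := by
  unfold nu; infer_instance

theorem core_symm {G : SimpleGraph ℕ} {v u : ℕ} : core G v u ↔ core G u v :=
  ⟨fun h => ⟨h.1.symm, h.2.2, h.2.1⟩, fun h => ⟨h.1.symm, h.2.2, h.2.1⟩⟩

/-- the recursion for the selections -/
theorem sel_eq {G : SimpleGraph ℕ} {x : ℕ}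
    (h : ∀ v, v ≠ x → G.dist x (par G x v) + 1 = G.dist x v) (U : Idx → Finset ℕ) (v : ℕ) :
    sel G x U v = U (idx G x (sel G x U) v) := by
  by_cases hv : v = x
  · subst hv
    simp [sel, idx, selN]
  · have h1 := h v hv
    have h2 : sel G x U v = U (idx G x (selN G x U (G.dist x (par G x v))) v) := by
      unfold sel
      rw [← h1]
      rfl
    rw [h2]
    unfold idx
    rw [if_neg hv, if_neg hv]
    rfl

theorem measurable_cyl (F : Finset ℕ) (A : ℕ → Finset ℕ) :
    MeasurableSet {S : ℕ → Finset ℕ | ∀ v ∈ F, S v = A v} := by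
  have : {S : ℕ → Finset ℕ | ∀ v ∈ F, S v = A v} = ⋂ v ∈ F, (fun S => S v) ⁻¹' {A v} := by
    ext S; simp
  rw [this]
  exact F.measurableSet_biInter fun v _ => (measurable_pi_apply v) trivial

theorem measurable_sel (hM : TaskMeas) (G : SimpleGraph ℕ) (x : ℕ) :
    Measurable (fun U : Idx → Finset ℕ => sel G x U) := by
  obtain ⟨-, -, -, -, -, h, -⟩ := hM
  refine measurable_pi_iff.2 fun v => ?_
  exact (h x v).comp (measurable_const.prodMk measurable_id)

theorem prod_swap_two {F : Finset ℕ} {x y : ℕ} (hx : x ∈ F) (hy : y ∈ F) (hxy : x ≠ y)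
    (a b : ℕ → ℝ≥0∞) (h : ∀ v ∈ F, v ≠ x → v ≠ y → a v = b v) (h2 : a x * a y = b x * b y) :
    ∏ v ∈ F, a v = ∏ v ∈ F, b v := by
  rw [← Finset.mul_prod_erase F a hx, ← Finset.mul_prod_erase F b hx,
    ← Finset.mul_prod_erase (F.erase x) a (Finset.mem_erase.2 ⟨hxy.symm, hy⟩),
    ← Finset.mul_prod_erase (F.erase x) b (Finset.mem_erase.2 ⟨hxy.symm, hy⟩),
    ← mul_assoc, ← mul_assoc, h2]
  congr 1
  refine Finset.prod_congr rfl fun v hv => ?_
  simp only [Finset.mem_erase] at hv
  exact h v hv.2.2 hv.2.1 hv.1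

/-- root change along an edge -/
theorem law_adj (hT : TaskTree) (hC : TaskCore) (hQ : TaskUniq) (hY : TaskCyl) (hM : TaskMeas)
    (hS : TaskSwap) {d : ℕ} {μ : Finset ℕ → PMF (Finset ℕ)} (hμ : IsMu d μ)
    {G : SimpleGraph ℕ} (hG : Good d G) {x y : ℕ} (hxy : G.Adj x y) :
    (nu μ).map (fun U => sel G x U) = (nu μ).map (fun U => sel G y U) := by
  obtain ⟨t1, t2, t3, t4, t5⟩ := hT G hG.1
  have hfin := t5 (fun v => (hG.2 v).1) x
  set F : ℕ → Finset ℕ := fun n => (hfin (n + 1)).toFinset with hF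
  have memF : ∀ n v, v ∈ F n ↔ G.dist x v ≤ n + 1 := by
    intro n v; simp [hF]
  have hdxy : G.dist x y = 1 := SimpleGraph.dist_eq_one_iff_adj.2 hxy
  have hne : x ≠ y := hxy.ne
  haveI : IsProbabilityMeasure ((nu μ).map (fun U => sel G x U)) :=
    Measure.isProbabilityMeasure_map (measurable_sel hM G x).aemeasurable
  haveI : IsProbabilityMeasure ((nu μ).map (fun U => sel G y U)) :=
    Measure.isProbabilityMeasure_map (measurable_sel hM G y).aemeasurable
  refine hQ F ?_ ?_ _ _ ?_
  · intro n m hnm v hv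
    rw [memF] at hv ⊢
    omega
  · intro v
    exact ⟨G.dist x v, by rw [memF]; omega⟩
  · intro n A
    rw [Measure.map_apply (measurable_sel hM G x) (measurable_cyl _ _),
      Measure.map_apply (measurable_sel hM G y) (measurable_cyl _ _)]
    have hxF : x ∈ F n := by rw [memF, SimpleGraph.dist_self]; omega
    have hyF : y ∈ F n := by rw [memF, hdxy]; omega
    have e1 := hY μ G hG.1 x (F n) hxF (fun v hv hvx => by
      rw [memF] at hv ⊢
      have := (t1 x v hvx).2.1
      omega) (fun v hv => (t1 x v hv).2.1) A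
    have e2 := hY μ G hG.1 y (F n) hyF (fun v hv hvy => by
      by_cases hvx : v = x
      · subst hvx
        rw [t4 y v hxy.symm]
        exact hyF
      · rw [t3 x y v hxy hvx hvy]
        rw [memF] at hv ⊢
        have := (t1 x v hvx).2.1
        omega) (fun v hv => (t1 y v hv).2.1) A
    show nu μ {U | ∀ v ∈ F n, sel G x U v = A v} = nu μ {U | ∀ v ∈ F n, sel G y U v = A v}
    rw [e1, e2]
    refine prod_swap_two hxF hyF hne _ _ ?_ ?_
    · intro v hv hvx hvy
      unfold idx
      rw [if_neg hvx, if_neg hvy, t3 x y v hxy hvx hvy]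
    · have i1 : idx G x A x = (x, nbr G x, none) := by simp [idx]
      have i2 : idx G x A y = (y, nbr G y, some (x, decide (y ∈ A x))) := by
        unfold idx
        rw [if_neg hne.symm, t4 x y hxy]
      have i3 : idx G y A y = (y, nbr G y, none) := by simp [idx]
      have i4 : idx G y A x = (x, nbr G x, some (y, decide (x ∈ A y))) := by
        unfold idx
        rw [if_neg hne, t4 y x hxy.symm]
      rw [i1, i2, i3, i4]
      show (μ (nbr G x)) (A x) * (cond μ (nbr G y) x (decide (y ∈ A x))) (A y) =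
        (cond μ (nbr G x) y (decide (x ∈ A y))) (A x) * (μ (nbr G y)) (A y)
      obtain ⟨c1, c2, c3, -, -⟩ := hC d G hG x
      obtain ⟨c1', c2', c3', -, -⟩ := hC d G hG y
      rw [hS d μ hμ (nbr G x) (nbr G y) x y c2 c2' c3 c3' (by rw [c1, c1', core_symm]) (A x) (A y),
        mul_comm]

/-- the law of the selections does not depend on the root of the exploration -/
theorem law_root (hT : TaskTree) (hC : TaskCore) (hQ : TaskUniq) (hY : TaskCyl) (hM : TaskMeas)
    (hS : TaskSwap) {d : ℕ} {μ : Finset ℕ → PMF (Finset ℕ)} (hμ : IsMu d μ)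
    {G : SimpleGraph ℕ} (hG : Good d G) (x y : ℕ) :
    (nu μ).map (fun U => sel G x U) = (nu μ).map (fun U => sel G y U) := by
  obtain ⟨w⟩ := hG.1.connected.preconnected x y
  induction w with
  | nil => rfl
  | cons h _ ih => exact (law_adj hT hC hQ hY hM hS hμ hG h).trans ih

/-- transport of selections along a bijection -/
def tr (φ : ℕ ≃ ℕ) (S : ℕ → Finset ℕ) (w : ℕ) : Finset ℕ := (S (φ.symm w)).map φ.toEmbedding

theorem measurable_tr (φ : ℕ ≃ ℕ) : Measurable (tr φ) := by
  refine measurable_pi_iff.2 fun w => ?_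
  exact (measurable_of_countable (fun A : Finset ℕ => A.map φ.toEmbedding)).comp
    (measurable_pi_apply (φ.symm w))

theorem map_symm_map (φ : ℕ ≃ ℕ) (A : Finset ℕ) :
    (A.map φ.symm.toEmbedding).map φ.toEmbedding = A := by
  ext a; simp

theorem map_map_symm (φ : ℕ ≃ ℕ) (A : Finset ℕ) :
    (A.map φ.toEmbedding).map φ.symm.toEmbedding = A := by
  ext a; simp

/-- the law of the selections is equivariant -/
theorem law_equiv (hT : TaskTree) (hQ : TaskUniq) (hY : TaskCyl) (hM : TaskMeas)
    (hE : TaskEquiv) {d : ℕ} {μ : Finset ℕ → PMF (Finset ℕ)} (hμ : IsMu d μ)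
    {G G' : SimpleGraph ℕ} (hG : Good d G) (φ : ℕ ≃ ℕ)
    (hφ : ∀ a b, G'.Adj (φ a) (φ b) ↔ G.Adj a b) (x : ℕ) :
    (nu μ).map (fun U => tr φ (sel G x U)) = (nu μ).map (fun U => sel G' (φ x) U) := by
  obtain ⟨eC, eG⟩ := hE d μ hμ
  obtain ⟨g1, g2, g3, -⟩ := eG G G' φ hφ
  have hG' : Good d G' := g3 d hG
  obtain ⟨t1, -, -, -, -⟩ := hT G hG.1
  obtain ⟨t1', -, -, -, t5'⟩ := hT G' hG'.1
  have hfin := t5' (fun v => (hG'.2 v).1) (φ x)
  set F : ℕ → Finset ℕ := fun n => (hfin n).toFinset with hF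
  have memF : ∀ n v, v ∈ F n ↔ G'.dist (φ x) v ≤ n := by
    intro n v; simp [hF]
  have hmt : Measurable (fun U : Idx → Finset ℕ => tr φ (sel G x U)) :=
    (measurable_tr φ).comp (measurable_sel hM G x)
  haveI : IsProbabilityMeasure ((nu μ).map (fun U => tr φ (sel G x U))) :=
    Measure.isProbabilityMeasure_map hmt.aemeasurable
  haveI : IsProbabilityMeasure ((nu μ).map (fun U => sel G' (φ x) U)) :=
    Measure.isProbabilityMeasure_map (measurable_sel hM G' (φ x)).aemeasurable
  have hpar : ∀ v, v ≠ x → par G' (φ x) (φ v) = φ (par G x v) := by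
    intro v hv
    refine ((t1' (φ x) (φ v) (fun h => hv (φ.injective h))).2.2 _ ((hφ _ _).2 (t1 x v hv).1)
      ?_).symm
    rw [g2, g2]
    have := (t1 x v hv).2.1
    omega
  refine hQ F ?_ ?_ _ _ ?_
  · intro n m hnm v hv
    rw [memF] at hv ⊢
    omega
  · intro v
    exact ⟨G'.dist (φ x) v, by rw [memF]⟩
  · intro n A
    rw [Measure.map_apply hmt (measurable_cyl _ _),
      Measure.map_apply (measurable_sel hM G' (φ x)) (measurable_cyl _ _)]
    have hxF : φ x ∈ F n := by rw [memF, SimpleGraph.dist_self]; omega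
    have e2 := hY μ G' hG'.1 (φ x) (F n) hxF (fun v hv hvx => by
      rw [memF] at hv ⊢
      have := (t1' (φ x) v hvx).2.1
      omega) (fun v hv => (t1' (φ x) v hv).2.1) A
    set A' : ℕ → Finset ℕ := fun v => (A (φ v)).map φ.symm.toEmbedding with hA'
    set F' : Finset ℕ := (F n).map φ.symm.toEmbedding with hF'
    have memF' : ∀ v, v ∈ F' ↔ φ v ∈ F n := by
      intro v
      rw [hF', Finset.mem_map]
      constructor
      · rintro ⟨w, hw, rfl⟩
        simpa using hw
      · intro h
        exact ⟨φ v, h, by simp⟩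
    have e1 := hY μ G hG.1 x F' ((memF' _).2 hxF) (fun v hv hvx => by
      rw [memF', memF, g2] at hv ⊢
      have := (t1 x v hvx).2.1
      omega) (fun v hv => (t1 x v hv).2.1) A'
    have hset : (fun U => tr φ (sel G x U)) ⁻¹' {S : ℕ → Finset ℕ | ∀ v ∈ F n, S v = A v} =
        {U | ∀ v ∈ F', sel G x U v = A' v} := by
      ext U
      simp only [Set.mem_preimage, Set.mem_setOf_eq]
      constructor
      · intro h v hv
        have h1 := h (φ v) ((memF' v).1 hv)
        simp only [tr, Equiv.symm_apply_apply] at h1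
        rw [hA']
        simp only
        rw [← h1, map_map_symm]
      · intro h w hw
        have h1 := h (φ.symm w) ((memF' _).2 (by simpa using hw))
        simp only [tr]
        rw [h1, hA']
        simp only [Equiv.apply_symm_apply]
        rw [map_symm_map]
    show nu μ ((fun U => tr φ (sel G x U)) ⁻¹' {S : ℕ → Finset ℕ | ∀ v ∈ F n, S v = A v}) =
      nu μ {U | ∀ v ∈ F n, sel G' (φ x) U v = A v}
    rw [hset, e1, e2, hF', Finset.prod_map]
    refine Finset.prod_congr rfl fun w hw => ?_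
    obtain ⟨v, rfl⟩ : ∃ v, φ v = w := ⟨φ.symm w, by simp⟩
    simp only [Equiv.coe_toEmbedding, Equiv.symm_apply_apply]
    have hAv : A (φ v) = (A' v).map φ.toEmbedding := by
      rw [hA']; simp only; rw [map_symm_map]
    by_cases hvx : v = x
    · subst hvx
      have i1 : idx G v A' v = (v, nbr G v, none) := by simp [idx]
      have i2 : idx G' (φ v) A (φ v) = (φ v, nbr G' (φ v), none) := by simp [idx]
      rw [i1, i2]
      show (μ (nbr G v)) (A' v) = (μ (nbr G' (φ v))) (A (φ v))
      rw [g1, hAv, hμ.equiv]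
    · have hvx' : φ v ≠ φ x := fun h => hvx (φ.injective h)
      have i1 : idx G x A' v = (v, nbr G v, some (par G x v, decide (v ∈ A' (par G x v)))) := by
        simp [idx, hvx]
      have i2 : idx G' (φ x) A (φ v) =
          (φ v, nbr G' (φ v), some (φ (par G x v), decide (φ v ∈ A (φ (par G x v))))) := by
        unfold idx
        rw [if_neg hvx', hpar v hvx]
      rw [i1, i2]
      show (cond μ (nbr G v) (par G x v) (decide (v ∈ A' (par G x v)))) (A' v) =
        (cond μ (nbr G' (φ v)) (φ (par G x v)) (decide (φ v ∈ A (φ (par G x v))))) (A (φ v))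
      have hdec : decide (φ v ∈ A (φ (par G x v))) = decide (v ∈ A' (par G x v)) := by
        congr 1
        rw [hA']
        simp only [Finset.mem_map_equiv, Equiv.symm_symm]
      rw [hdec, g1, hAv, eC]

end Pool.Agent.H424R3.LN
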