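import Mathlib

set_option autoImplicit false

open MeasureTheory Filter
open scoped ENNReal Topology

namespace Pool.Agent.H424R3.LN

/-- The sigma-algebra on graphs with vertex set `ℕ` generated by the adjacency events. -/
instance graphSigma : MeasurableSpace (SimpleGraph ℕ) :=
  MeasurableSpace.generateFrom {s | ∃ x y : ℕ, s = {G : SimpleGraph ℕ | G.Adj x y}}

/-- The discrete sigma-algebra on finite sets of vertices. -/
instance finsetSigma : MeasurableSpace (Finset ℕ) := ⊤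

/-- A random rooted infinite locally finite tree, with vertex set `ℕ`. -/
structure RandomTree {Ω : Type} [MeasurableSpace Ω] (P : Measure Ω) where
  /-- the random tree -/
  graph : Ω → SimpleGraph ℕ
  /-- the random root -/
  root : Ω → ℕ
  measurable_graph : Measurable graph
  measurable_root : Measurable root
  isTree : ∀ ω, (graph ω).IsTree
  locallyFinite : ∀ ω x, ((graph ω).neighborSet x).Finite

/-- The mass transport principle, for all measurable isomorphism-invariant nonnegative functions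
of doubly rooted graphs. -/
def RandomTree.Unimodular {Ω : Type} [MeasurableSpace Ω] {P : Measure Ω}
    (X : RandomTree P) : Prop :=
  ∀ f : SimpleGraph ℕ → ℕ → ℕ → ℝ≥0∞,
    (∀ x y, Measurable (fun G => f G x y)) →
    (∀ (G G' : SimpleGraph ℕ) (φ : ℕ ≃ ℕ), (∀ a b, G'.Adj (φ a) (φ b) ↔ G.Adj a b) →
      ∀ x y, f G' (φ x) (φ y) = f G x y) →
    ∫⁻ ω, ∑' x, f (X.graph ω) (X.root ω) x ∂P = ∫⁻ ω, ∑' x, f (X.graph ω) x (X.root ω) ∂P

/-- The mass transport principle for a random rooted graph `graph` with a random set of marked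
edges, given as a graph `L`. -/
def UnimodularMarked {Ω : Type} [MeasurableSpace Ω] (P : Measure Ω)
    (graph L : Ω → SimpleGraph ℕ) (root : Ω → ℕ) : Prop :=
  ∀ f : SimpleGraph ℕ → SimpleGraph ℕ → ℕ → ℕ → ℝ≥0∞,
    (∀ x y, Measurable (fun p : SimpleGraph ℕ × SimpleGraph ℕ => f p.1 p.2 x y)) →
    (∀ (G G' M M' : SimpleGraph ℕ) (φ : ℕ ≃ ℕ), (∀ a b, G'.Adj (φ a) (φ b) ↔ G.Adj a b) →
      (∀ a b, M'.Adj (φ a) (φ b) ↔ M.Adj a b) →
      ∀ x y, f G' M' (φ x) (φ y) = f G M x y) →
    ∫⁻ ω, ∑' x, f (graph ω) (L ω) (root ω) x ∂P = ∫⁻ ω, ∑' x, f (graph ω) (L ω) x (root ω) ∂P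

/-- `L` is a line ensemble of the graph `G`: every vertex meets no or exactly two edges of `L`. -/
def IsLineEnsemble (G L : SimpleGraph ℕ) : Prop :=
  L ≤ G ∧ ∀ v, L.neighborSet v = ∅ ∨ (L.neighborSet v).ncard = 2

/-- There is a walk of length `n + 1` without backtracking that starts with the step `v u`. -/
def deepN (G : SimpleGraph ℕ) : ℕ → ℕ → ℕ → Prop
  | 0, _, _ => True
  | n + 1, v, u => ∃ w, w ≠ v ∧ G.Adj u w ∧ deepN G n u w

/-- There are arbitrarily long walks without backtracking that start with the step `v u`. -/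
def Deep (G : SimpleGraph ℕ) (v u : ℕ) : Prop := ∀ n, deepN G n v u

/-- The edges with both sides infinite. -/
def core (G : SimpleGraph ℕ) (v u : ℕ) : Prop := G.Adj v u ∧ Deep G v u ∧ Deep G u v

/-- Trees with all degrees at most `d`. -/
def Good (d : ℕ) (G : SimpleGraph ℕ) : Prop :=
  G.IsTree ∧ ∀ v, (G.neighborSet v).Finite ∧ (G.neighborSet v).ncard ≤ d

open Classical in
/-- The set of neighbours in the core. -/
noncomputable def nbr (G : SimpleGraph ℕ) (v : ℕ) : Finset ℕ :=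
  if h : {u | core G v u}.Finite then h.toFinset else ∅

/-- The parent of `v` if the tree is rooted at `x`. -/
noncomputable def par (G : SimpleGraph ℕ) (x v : ℕ) : ℕ :=
  sInf {p | G.Adj v p ∧ G.dist x p < G.dist x v}

/-- Properties of the law of the pair selected at a vertex with neighbourhood `N`. -/
structure IsMu (d : ℕ) (μ : Finset ℕ → PMF (Finset ℕ)) : Prop where
  supp : ∀ N A, A ∈ (μ N).support → A ⊆ N ∧ (A = ∅ ∨ A.card = 2)
  edge : ∀ (N : Finset ℕ) (p : ℕ), 2 ≤ N.card → N.card ≤ d → p ∈ N →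
    ∑' A, ({A : Finset ℕ | p ∈ A}).indicator (μ N) A = 2 / (d : ℝ≥0∞)
  empty : ∀ N : Finset ℕ, 2 ≤ N.card → N.card ≤ d → (μ N) ∅ = 1 - (N.card : ℝ≥0∞) / d
  equiv : ∀ (φ : ℕ ≃ ℕ) (N A : Finset ℕ),
    μ (N.map φ.toEmbedding) (A.map φ.toEmbedding) = μ N A

open Classical in
/-- The law `μ N` conditioned on the event that `p` is selected (if `s`) or not (if not `s`). -/
noncomputable def cond (μ : Finset ℕ → PMF (Finset ℕ)) (N : Finset ℕ) (p : ℕ) (s : Bool) :
    PMF (Finset ℕ) :=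
  if h : ∃ A ∈ {A : Finset ℕ | p ∈ A ↔ s = true}, A ∈ (μ N).support then
    (μ N).filter {A : Finset ℕ | p ∈ A ↔ s = true} h
  else μ N

/-- Index set of the independent choices: vertex, neighbourhood, (parent, status of the edge to
the parent). -/
abbrev Idx : Type := ℕ × Finset ℕ × Option (ℕ × Bool)

/-- The law of the choice at an index. -/
noncomputable def law (μ : Finset ℕ → PMF (Finset ℕ)) : Idx → PMF (Finset ℕ)
  | (_, N, none) => μ N
  | (_, N, some (p, s)) => cond μ N p s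

instance lawProb (μ : Finset ℕ → PMF (Finset ℕ)) (i : Idx) :
    IsProbabilityMeasure (law μ i).toMeasure := PMF.toMeasure.isProbabilityMeasure _

/-- The law of all the independent choices. -/
noncomputable def nu (μ : Finset ℕ → PMF (Finset ℕ)) : Measure (Idx → Finset ℕ) :=
  Measure.infinitePi (fun i => (law μ i).toMeasure)

/-- The index used at `v` if the tree is explored from `x`, given the selections `S`. -/
noncomputable def idx (G : SimpleGraph ℕ) (x : ℕ) (S : ℕ → Finset ℕ) (v : ℕ) : Idx :=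
  if v = x then (v, nbr G v, none)
  else (v, nbr G v, some (par G x v, decide (v ∈ S (par G x v))))

/-- Selections after exploring `n` generations from `x`. -/
noncomputable def selN (G : SimpleGraph ℕ) (x : ℕ) (U : Idx → Finset ℕ) : ℕ → ℕ → Finset ℕ
  | 0, v => U (v, nbr G v, none)
  | n + 1, v => U (idx G x (selN G x U n) v)

/-- The selections, exploring the tree from `x`. -/
noncomputable def sel (G : SimpleGraph ℕ) (x : ℕ) (U : Idx → Finset ℕ) (v : ℕ) : Finset ℕ :=
  selN G x U (G.dist x v) v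

/-- The graph of mutual selections. -/
def toGraph (S : ℕ → Finset ℕ) : SimpleGraph ℕ where
  Adj a b := a ≠ b ∧ b ∈ S a ∧ a ∈ S b
  symm := ⟨fun _ _ h => ⟨h.1.symm, h.2.2, h.2.1⟩⟩
  loopless := ⟨fun _ h => h.1 rfl⟩

/-! ### Tasks -/

/-- T1 (PMF). With weights `2 / (d (|N| - 1))` on the two-element subsets of `N` and
`1 - |N| / d` on the empty set if `2 ≤ |N| ≤ d`, and `pure ∅` otherwise. -/
def TaskMu : Prop := ∀ d : ℕ, 2 ≤ d → ∃ μ : Finset ℕ → PMF (Finset ℕ), IsMu d μ

/-- T2 (trees). In a tree the distances from `x` to adjacent vertices differ by exactly one and the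
parent is the unique neighbour closer to `x`. -/
def TaskTree : Prop := ∀ G : SimpleGraph ℕ, G.IsTree →
  (∀ x v, v ≠ x → G.Adj v (par G x v) ∧ G.dist x (par G x v) + 1 = G.dist x v ∧
    ∀ p, G.Adj v p → G.dist x p < G.dist x v → p = par G x v) ∧
  (∀ x u v, G.Adj u v → (v ≠ x ∧ u = par G x v) ∨ (u ≠ x ∧ v = par G x u)) ∧
  (∀ x y v, G.Adj x y → v ≠ x → v ≠ y → par G y v = par G x v) ∧
  (∀ x y, G.Adj x y → par G x y = x) ∧
  ((∀ v, (G.neighborSet v).Finite) → ∀ x n, {v | G.dist x v ≤ n}.Finite)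

/-- T3 (core). Elementary facts on `Deep`: in an infinite locally finite connected graph, every
vertex has a deep outgoing edge, every edge is deep in at least one direction, core vertices have
at least two core neighbours, vertices outside the core have exactly one deep outgoing edge. -/
def TaskCore : Prop := ∀ (d : ℕ) (G : SimpleGraph ℕ), Good d G → ∀ v,
  (∀ u, u ∈ nbr G v ↔ core G v u) ∧
  (nbr G v = ∅ ∨ 2 ≤ (nbr G v).card) ∧ (nbr G v).card ≤ d ∧
  ({u | G.Adj v u ∧ Deep G v u ∧ ¬ Deep G u v}.ncard = if nbr G v = ∅ then 1 else 0) ∧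
  ((G.neighborSet v).ncard = (nbr G v).card + (if nbr G v = ∅ then 1 else 0) +
    {u | G.Adj u v ∧ Deep G u v ∧ ¬ Deep G v u}.ncard)

/-- T4 (uniqueness). Two laws on selections that agree on the cylinders over an increasing
exhausting sequence of finite sets of vertices are equal. -/
def TaskUniq : Prop := ∀ (F : ℕ → Finset ℕ), Monotone F → (∀ v, ∃ n, v ∈ F n) →
  ∀ (l₁ l₂ : Measure (ℕ → Finset ℕ)) [IsProbabilityMeasure l₁] [IsProbabilityMeasure l₂],
    (∀ n (A : ℕ → Finset ℕ), l₁ {S | ∀ v ∈ F n, S v = A v} = l₂ {S | ∀ v ∈ F n, S v = A v}) →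
    l₁ = l₂

/-- T5 (cylinders). For a finite set `F` of vertices that contains `x` and is closed under
parents. -/
def TaskCyl : Prop := ∀ (μ : Finset ℕ → PMF (Finset ℕ)) (G : SimpleGraph ℕ), G.IsTree →
  ∀ (x : ℕ) (F : Finset ℕ), x ∈ F → (∀ v ∈ F, v ≠ x → par G x v ∈ F) →
  (∀ v, v ≠ x → G.dist x (par G x v) + 1 = G.dist x v) →
  ∀ A : ℕ → Finset ℕ,
    nu μ {U | ∀ v ∈ F, sel G x U v = A v} = ∏ v ∈ F, (law μ (idx G x A v)) (A v)

/-- T6 (measurability). -/
def TaskMeas : Prop :=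
  (∀ d, MeasurableSet {G : SimpleGraph ℕ | Good d G}) ∧
  (∀ v u, MeasurableSet {G : SimpleGraph ℕ | Deep G v u}) ∧
  (∀ v (N : Finset ℕ), MeasurableSet {G : SimpleGraph ℕ | nbr G v = N}) ∧
  (∀ x y n, MeasurableSet {G : SimpleGraph ℕ | G.dist x y = n}) ∧
  (∀ x v p, MeasurableSet {G : SimpleGraph ℕ | par G x v = p}) ∧
  (∀ x v, Measurable (fun q : SimpleGraph ℕ × (Idx → Finset ℕ) => sel q.1 x q.2 v)) ∧
  (∀ x, Measurable (fun q : SimpleGraph ℕ × (Idx → Finset ℕ) => toGraph (sel q.1 x q.2)))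

/-- T7 (algebra of the root change): the joint law of the choices at the two ends of an edge does
not depend on which end is explored first. -/
def TaskSwap : Prop := ∀ (d : ℕ) (μ : Finset ℕ → PMF (Finset ℕ)), IsMu d μ →
  ∀ (N M : Finset ℕ) (x y : ℕ), (N = ∅ ∨ 2 ≤ N.card) → (M = ∅ ∨ 2 ≤ M.card) →
    N.card ≤ d → M.card ≤ d → (y ∈ N ↔ x ∈ M) → ∀ A B : Finset ℕ,
      (μ N) A * (cond μ M x (decide (y ∈ A))) B = (μ M) B * (cond μ N y (decide (x ∈ B))) A

/-- T8 (equivariance of the conditional laws). -/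
def TaskEquiv : Prop := ∀ (d : ℕ) (μ : Finset ℕ → PMF (Finset ℕ)), IsMu d μ →
  (∀ (φ : ℕ ≃ ℕ) (N A : Finset ℕ) (p : ℕ) (s : Bool),
    cond μ (N.map φ.toEmbedding) (φ p) s (A.map φ.toEmbedding) = cond μ N p s A) ∧
  (∀ (G G' : SimpleGraph ℕ) (φ : ℕ ≃ ℕ), (∀ a b, G'.Adj (φ a) (φ b) ↔ G.Adj a b) →
    (∀ v, nbr G' (φ v) = (nbr G v).map φ.toEmbedding) ∧
    (∀ x y, G'.dist (φ x) (φ y) = G.dist x y) ∧ (∀ d', Good d' G → Good d' G') ∧
    (∀ v u, Deep G' (φ v) (φ u) ↔ Deep G v u))

/-- T9 (almost sure structure): almost surely the selections are mutual, contained in the core and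
of size zero or two. -/
def TaskSupp : Prop := ∀ (d : ℕ) (μ : Finset ℕ → PMF (Finset ℕ)), IsMu d μ →
  (∀ᵐ U ∂(nu μ), ∀ i : Idx, U i ∈ (law μ i).support) ∧
  (∀ (N : Finset ℕ) (p : ℕ) (s : Bool), (cond μ N p s).support ⊆ (μ N).support) ∧
  (∀ (N M A : Finset ℕ) (x y : ℕ), (N = ∅ ∨ 2 ≤ N.card) → (M = ∅ ∨ 2 ≤ M.card) →
    N.card ≤ d → M.card ≤ d → (y ∈ N ↔ x ∈ M) → A ∈ (μ N).support →
    ∀ B ∈ (cond μ M x (decide (y ∈ A))).support, (x ∈ B ↔ y ∈ A))

/-- T10 (mass transport computation, the density). Uses `TaskCore`, `TaskMeas`, `TaskEquiv` as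
hypotheses. With `q = P(nbr root = ∅)` one has `E deg = E |nbr root| + 2 q` (mass transport with
`f G x y = 1` if `G.Adj x y ∧ Deep G x y ∧ ¬ Deep G y x`), `|nbr root| ≤ d` and so
`q (d - 2) ≤ d - E deg`; if `d = 2` then `E deg = 2`, so the degree of the root is `2` a.s., so all
degrees are `2` a.s. (mass transport with `f G x y = 1` if the degree of `y` is not two) and
`q = 0`. The first claim is mass transport with `f G x y = 1` if `y` has degree larger than `d`. -/
def TaskDens : Prop := TaskCore → TaskMeas → TaskEquiv →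
  ∀ (d : ℕ), 2 ≤ d → ∀ {Ω : Type} [MeasurableSpace Ω] (P : Measure Ω) [IsProbabilityMeasure P]
    (X : RandomTree P), X.Unimodular →
    (∀ᵐ ω ∂P, ((X.graph ω).neighborSet (X.root ω)).ncard ≤ d) →
    (∀ᵐ ω ∂P, Good d (X.graph ω)) ∧
    3 * ((∫ ω, (((X.graph ω).neighborSet (X.root ω)).ncard : ℝ) ∂P) / d) - 2 ≤
      (∫ ω, ((nbr (X.graph ω) (X.root ω)).card : ℝ) ∂P) / d

end Pool.Agent.H424R3.LN
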