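import Pool.Agent.H424R3.LN.Stmts

set_option autoImplicit false

open Set

namespace Pool.Agent.H424R3.LN.TaskCoreNS

open Pool.Agent.H424R3.LN

variable {G : SimpleGraph ℕ}

lemma deepN_succ_le (n : ℕ) : ∀ v u, deepN G (n + 1) v u → deepN G n v u := by
  induction n with
  | zero => intro v u _; trivial
  | succ n ih =>
    rintro v u ⟨w, hw, ha, hd⟩
    exact ⟨w, hw, ha, ih u w hd⟩

lemma deepN_mono {m n : ℕ} (h : m ≤ n) (v u : ℕ) (hd : deepN G n v u) : deepN G m v u := by
  induction h with
  | refl => exact hd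
  | step _ ih => exact ih (deepN_succ_le _ v u hd)

lemma deep_step (hf : ∀ v, (G.neighborSet v).Finite) {P : ℕ → Prop} {u : ℕ}
    (h : ∀ n, ∃ w, P w ∧ G.Adj u w ∧ deepN G n u w) : ∃ w, P w ∧ G.Adj u w ∧ Deep G u w := by
  by_contra hcon
  push Not at hcon
  have h1 : ∀ w, ∃ n, P w → G.Adj u w → ¬ deepN G n u w := by
    intro w
    by_cases hP : P w
    · by_cases ha : G.Adj u w
      · have := hcon w hP ha
        unfold Deep at this
        push Not at this
        obtain ⟨n, hn⟩ := this
        exact ⟨n, fun _ _ => hn⟩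
      · exact ⟨0, fun _ h => absurd h ha⟩
    · exact ⟨0, fun h => absurd h hP⟩
  choose f hf' using h1
  obtain ⟨N, hN⟩ := ((hf u).image f).bddAbove
  obtain ⟨w, hP, ha, hd⟩ := h N
  have hle : f w ≤ N := hN ⟨w, ha, rfl⟩
  exact hf' w hP ha (deepN_mono hle u w hd)

lemma deep_next (hf : ∀ v, (G.neighborSet v).Finite) {v u : ℕ} (h : Deep G v u) :
    ∃ w, w ≠ v ∧ G.Adj u w ∧ Deep G u w :=
  deep_step hf (P := fun w => w ≠ v) (fun n => h (n + 1))

lemma deep_of {v u w : ℕ} (hw : w ≠ v) (ha : G.Adj u w) (hd : Deep G u w) : Deep G v u := by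
  intro n
  cases n with
  | zero => trivial
  | succ n => exact ⟨w, hw, ha, hd n⟩

lemma dist_step (hc : G.Connected) {u z n : ℕ} (h : G.dist u z = n + 1) :
    ∃ w, G.Adj u w ∧ G.dist w z = n := by
  obtain ⟨p, hp⟩ := hc.exists_walk_length_eq_dist u z
  rw [h] at hp
  cases p with
  | nil => simp at hp
  | cons hadj q =>
    rename_i w
    refine ⟨w, hadj, ?_⟩
    have h1 : q.length = n := by simpa using hp
    have h2 : G.dist w z ≤ n := h1 ▸ G.dist_le q
    have h3 : G.dist u z ≤ G.dist u w + G.dist w z := hc.dist_triangle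
    have h4 : G.dist u w ≤ 1 := by
      have := G.dist_le hadj.toWalk
      simpa using this
    omega

lemma deepN_of_dist (hc : G.Connected) (n : ℕ) : ∀ v u z, G.dist u z = n →
    G.dist v z = n + 1 → deepN G n v u := by
  induction n with
  | zero => intros; trivial
  | succ n ih =>
    intro v u z h1 h2
    obtain ⟨w, ha, hw⟩ := dist_step hc h1
    refine ⟨w, ?_, ha, ih u w z hw h1⟩
    rintro rfl
    omega

lemma ball_finite (hc : G.Connected) (hf : ∀ v, (G.neighborSet v).Finite) (v : ℕ) (n : ℕ) :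
    {z | G.dist z v ≤ n}.Finite := by
  induction n with
  | zero =>
    refine (Set.finite_singleton v).subset ?_
    intro z hz
    have : G.dist z v = 0 := by simpa using hz
    exact (hc.dist_eq_zero_iff).1 this
  | succ n ih =>
    refine (ih.union (ih.biUnion (fun w _ => hf w))).subset ?_
    intro z hz
    by_cases h : G.dist z v ≤ n
    · exact Or.inl h
    · right
      have h1 : G.dist z v = n + 1 := by
        have : G.dist z v ≤ n + 1 := hz
        omega
      obtain ⟨w, ha, hw⟩ := dist_step hc h1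
      simp only [Set.mem_iUnion]
      exact ⟨w, by simp [hw], ha.symm⟩

lemma exists_deep (hc : G.Connected) (hf : ∀ v, (G.neighborSet v).Finite) (v : ℕ) :
    ∃ u, G.Adj v u ∧ Deep G v u := by
  obtain ⟨u, _, h⟩ := deep_step hf (P := fun _ => True) (u := v) (by
    intro n
    obtain ⟨z, hz⟩ := (ball_finite hc hf v n).exists_notMem
    have hz' : n + 1 ≤ G.dist v z := by
      rw [SimpleGraph.dist_comm]
      simp only [Set.mem_setOf_eq, not_le] at hz
      omega
    obtain ⟨k, hk⟩ := Nat.exists_eq_add_of_le hz'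
    have hk' : G.dist v z = (n + k) + 1 := by omega
    obtain ⟨u, ha, hu⟩ := dist_step hc hk'
    exact ⟨u, trivial, ha, deepN_mono (by omega) v u (deepN_of_dist hc (n + k) v u z hu hk')⟩)
  exact ⟨u, h⟩

theorem taskCore : TaskCore := by
  intro d G hG v
  obtain ⟨hT, hG2⟩ := hG
  have hc : G.Connected := hT.1
  have hf : ∀ v, (G.neighborSet v).Finite := fun v => (hG2 v).1
  have hfin : {u | core G v u}.Finite := (hf v).subset (fun u hu => hu.1)
  have hmem : ∀ u, u ∈ nbr G v ↔ core G v u := by
    intro u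
    unfold nbr
    rw [dif_pos hfin]
    simp
  have hcard : (nbr G v).card = {u | core G v u}.ncard := by
    unfold nbr
    rw [dif_pos hfin, Set.ncard_eq_toFinset_card _ hfin]
  have hcore : ∀ u, core G v u → ∃ w, w ≠ u ∧ core G v w := by
    rintro u ⟨ha, hd1, hd2⟩
    obtain ⟨w, hw, haw, hdw⟩ := deep_next hf hd2
    exact ⟨w, hw, haw, hdw, deep_of hw.symm ha hd1⟩
  have hout : ({u | G.Adj v u ∧ Deep G v u ∧ ¬ Deep G u v}.ncard =
      if nbr G v = ∅ then 1 else 0) := by
    split_ifs with he
    · obtain ⟨u, hau, hdu⟩ := exists_deep hc hf v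
      have hno : ∀ w, ¬ core G v w := by
        intro w hw
        have := (hmem w).2 hw
        rw [he] at this
        simp at this
      rw [Set.ncard_eq_one]
      refine ⟨u, ?_⟩
      ext w
      simp only [Set.mem_setOf_eq, Set.mem_singleton_iff]
      constructor
      · rintro ⟨haw, hdw, _⟩
        by_contra hne
        exact hno w ⟨haw, hdw, deep_of (Ne.symm hne) hau hdu⟩
      · rintro rfl
        exact ⟨hau, hdu, fun h => hno w ⟨hau, hdu, h⟩⟩
    · obtain ⟨w, hw⟩ := Finset.nonempty_iff_ne_empty.2 he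
      rw [hmem] at hw
      have : {u | G.Adj v u ∧ Deep G v u ∧ ¬ Deep G u v} = ∅ := by
        ext u
        simp only [Set.mem_setOf_eq, Set.mem_empty_iff_false, iff_false]
        rintro ⟨hau, hdu, hn⟩
        by_cases hwu : w = u
        · subst hwu; exact hn hw.2.2
        · exact hn (deep_of hwu hw.1 hw.2.1)
      rw [this]; simp
  refine ⟨hmem, ?_, ?_, hout, ?_⟩
  · by_cases he : nbr G v = ∅
    · exact Or.inl he
    · right
      obtain ⟨u, hu⟩ := Finset.nonempty_iff_ne_empty.2 he
      obtain ⟨w, hne, hw⟩ := hcore u ((hmem u).1 hu)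
      have h2 : 1 < (nbr G v).card := Finset.one_lt_card.2 ⟨w, (hmem w).2 hw, u, hu, hne⟩
      exact h2
  · rw [hcard]
    exact (Set.ncard_le_ncard (fun u hu => hu.1) (hf v)).trans (hG2 v).2
  · rw [← hout, hcard]
    have hsplit : G.neighborSet v = ({u | core G v u} ∪
        {u | G.Adj v u ∧ Deep G v u ∧ ¬ Deep G u v}) ∪
        {u | G.Adj u v ∧ Deep G u v ∧ ¬ Deep G v u} := by
      ext u
      simp only [SimpleGraph.mem_neighborSet, Set.mem_union, Set.mem_setOf_eq]
      constructor
      · intro ha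
        by_cases h1 : Deep G v u
        · by_cases h2 : Deep G u v
          · exact Or.inl (Or.inl ⟨ha, h1, h2⟩)
          · exact Or.inl (Or.inr ⟨ha, h1, h2⟩)
        · right
          refine ⟨ha.symm, ?_, h1⟩
          obtain ⟨w, haw, hdw⟩ := exists_deep hc hf v
          have hwu : w ≠ u := by
            rintro rfl; exact h1 hdw
          exact deep_of hwu haw hdw
      · rintro ((h | h) | h)
        · exact h.1
        · exact h.1
        · exact h.1.symm
    have hf2 : {u | G.Adj v u ∧ Deep G v u ∧ ¬ Deep G u v}.Finite :=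
      (hf v).subset (fun u hu => hu.1)
    have hf3 : {u | G.Adj u v ∧ Deep G u v ∧ ¬ Deep G v u}.Finite :=
      (hf v).subset (fun u hu => hu.1.symm)
    rw [hsplit, Set.ncard_union_eq _ (hfin.union hf2) hf3, Set.ncard_union_eq _ hfin hf2]
    · rw [Set.disjoint_left]
      rintro u h1 h2
      exact h2.2.2 h1.2.2
    · rw [Set.disjoint_left]
      rintro u (h1 | h1) h2
      · exact h2.2.2 h1.2.1
      · exact h2.2.2 h1.2.1

end Pool.Agent.H424R3.LN.TaskCoreNS
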