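import Pool.Agent.H424R3.LN.Stmts

/-!
# Project H424-LINES, task T5 (cylinders)
-/

set_option autoImplicit false

open MeasureTheory Filter
open scoped ENNReal Topology

namespace Pool.Agent.H424R3.LN.Cyl

open Pool.Agent.H424R3.LN

theorem idx_fst (G : SimpleGraph ℕ) (x : ℕ) (S : ℕ → Finset ℕ) (v : ℕ) : (idx G x S v).1 = v := by
  unfold idx
  split_ifs <;> rfl

theorem idx_congr (G : SimpleGraph ℕ) (x : ℕ) (S T : ℕ → Finset ℕ) (v : ℕ)
    (h : v ≠ x → S (par G x v) = T (par G x v)) : idx G x S v = idx G x T v := by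
  unfold idx
  split_ifs with hv
  · rfl
  · rw [h hv]

theorem sel_eq (G : SimpleGraph ℕ) (x : ℕ)
    (hd : ∀ v, v ≠ x → G.dist x (par G x v) + 1 = G.dist x v) (U : Idx → Finset ℕ) (v : ℕ) :
    sel G x U v = U (idx G x (sel G x U) v) := by
  by_cases hv : v = x
  · subst hv
    have h1 : sel G v U v = U (v, nbr G v, none) := by
      unfold sel
      rw [SimpleGraph.dist_self]
      rfl
    have h2 : idx G v (sel G v U) v = (v, nbr G v, none) := by
      unfold idx
      rw [if_pos rfl]
    rw [h1, h2]
  · have h1 : sel G x U v = U (idx G x (selN G x U (G.dist x (par G x v))) v) := by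
      conv_lhs => unfold sel
      rw [← hd v hv]
      rfl
    rw [h1]
    exact congrArg U (idx_congr G x _ _ v (fun _ => rfl))

theorem event_eq (G : SimpleGraph ℕ) (x : ℕ) (F : Finset ℕ)
    (hF : ∀ v ∈ F, v ≠ x → par G x v ∈ F)
    (hd : ∀ v, v ≠ x → G.dist x (par G x v) + 1 = G.dist x v) (A : ℕ → Finset ℕ)
    (U : Idx → Finset ℕ) :
    (∀ v ∈ F, sel G x U v = A v) ↔ (∀ v ∈ F, U (idx G x A v) = A v) := by
  constructor
  · intro h v hv
    have e : idx G x (sel G x U) v = idx G x A v :=
      idx_congr G x _ _ v (fun hvx => h _ (hF v hv hvx))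
    rw [← e, ← sel_eq G x hd U v]
    exact h v hv
  · intro h
    have key : ∀ n : ℕ, ∀ v ∈ F, G.dist x v = n → sel G x U v = A v := by
      intro n
      induction n using Nat.strong_induction_on with
      | _ n ih =>
        intro v hv hn
        have e : idx G x (sel G x U) v = idx G x A v := by
          refine idx_congr G x _ _ v (fun hvx => ?_)
          have h1 := hd v hvx
          exact ih (G.dist x (par G x v)) (by omega) _ (hF v hv hvx) rfl
        rw [sel_eq G x hd U v, e]
        exact h v hv
    intro v hv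
    exact key _ v hv rfl

theorem taskCyl : TaskCyl := by
  classical
  intro μ G _ x F _ hF hd A
  have hset : {U : Idx → Finset ℕ | ∀ v ∈ F, sel G x U v = A v} =
      Set.pi (↑(F.image (idx G x A)) : Set Idx) (fun i => {A i.1}) := by
    ext U
    rw [Set.mem_ofPred_eq, event_eq G x F hF hd A U, Set.mem_pi]
    constructor
    · intro h i hi
      obtain ⟨v, hv, rfl⟩ := Finset.mem_image.1 (Finset.mem_coe.1 hi)
      rw [Set.mem_singleton_iff, idx_fst]
      exact h v hv
    · intro h v hv
      have := h (idx G x A v) (Finset.mem_coe.2 (Finset.mem_image_of_mem _ hv))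
      rw [Set.mem_singleton_iff, idx_fst] at this
      exact this
  have hms : ∀ B : Finset ℕ, MeasurableSet ({B} : Set (Finset ℕ)) := fun B =>
    MeasurableSpace.measurableSet_top
  rw [hset]
  unfold nu
  rw [Measure.infinitePi_pi (fun i => (law μ i).toMeasure) (fun i _ => hms _),
    Finset.prod_image]
  · refine Finset.prod_congr rfl (fun v _ => ?_)
    rw [PMF.toMeasure_apply_singleton _ _ (hms _), idx_fst]
  · intro v _ w _ hvw
    have : (idx G x A v).1 = (idx G x A w).1 := by rw [hvw]
    rwa [idx_fst, idx_fst] at this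

end Pool.Agent.H424R3.LN.Cyl
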