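import Mathlib
import Pool.Agent.H424R3.LN.Stmts

/-! Task T10 (helper412): mass transport computation of the density. -/

set_option autoImplicit false

open MeasureTheory Filter
open scoped ENNReal Topology

namespace Pool.Agent.H424R3.LN.Dens

open Pool.Agent.H424R3.LN

lemma meas_adj (x y : ℕ) : MeasurableSet {G : SimpleGraph ℕ | G.Adj x y} :=
  MeasurableSpace.measurableSet_generateFrom ⟨x, y, rfl⟩

lemma meas_nbrSet (y : ℕ) (N : Finset ℕ) :
    MeasurableSet {G : SimpleGraph ℕ | G.neighborSet y = (N : Set ℕ)} := by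
  have h : {G : SimpleGraph ℕ | G.neighborSet y = (N : Set ℕ)} =
      ⋂ u : ℕ, {G : SimpleGraph ℕ | G.Adj y u ↔ u ∈ N} := by
    ext G
    simp only [Set.mem_ofPred_eq, Set.mem_iInter]
    constructor
    · intro h u
      rw [← SimpleGraph.mem_neighborSet, h]
      simp
    · intro h
      ext u
      rw [SimpleGraph.mem_neighborSet, h u]
      simp
  rw [h]
  refine MeasurableSet.iInter fun u => ?_
  by_cases hu : u ∈ N
  · simpa [hu] using meas_adj y u
  · have h1 : {G : SimpleGraph ℕ | G.Adj y u ↔ u ∈ N} = {G : SimpleGraph ℕ | G.Adj y u}ᶜ := by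
      ext G
      simp [hu]
    rw [h1]
    exact (meas_adj y u).compl

lemma meas_deg (y m : ℕ) :
    MeasurableSet {G : SimpleGraph ℕ | (G.neighborSet y).ncard = m} := by
  by_cases hm : m = 0
  · subst hm
    have h : {G : SimpleGraph ℕ | (G.neighborSet y).ncard = 0} =
        (⋃ N : {N : Finset ℕ // N.card ≠ 0},
          {G : SimpleGraph ℕ | G.neighborSet y = (N.1 : Set ℕ)})ᶜ := by
      ext G
      simp only [Set.mem_ofPred_eq, Set.mem_compl_iff, Set.mem_iUnion, not_exists]
      constructor
      · rintro h ⟨N, hN⟩ hG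
        rw [hG, Set.ncard_coe_finset] at h
        exact hN h
      · intro h
        by_contra h0
        have hfin : (G.neighborSet y).Finite := Set.finite_of_ncard_ne_zero h0
        refine h ⟨hfin.toFinset, ?_⟩ (by simp)
        rwa [Set.ncard_eq_toFinset_card _ hfin] at h0
    rw [h]
    exact (MeasurableSet.iUnion fun N : {N : Finset ℕ // N.card ≠ 0} => meas_nbrSet y N.1).compl
  · have h : {G : SimpleGraph ℕ | (G.neighborSet y).ncard = m} =
        (⋃ N : {N : Finset ℕ // N.card = m},
          {G : SimpleGraph ℕ | G.neighborSet y = (N.1 : Set ℕ)}) := by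
      ext G
      simp only [Set.mem_ofPred_eq, Set.mem_iUnion]
      constructor
      · intro h
        have hfin : (G.neighborSet y).Finite := Set.finite_of_ncard_ne_zero (by rw [h]; exact hm)
        refine ⟨⟨hfin.toFinset, ?_⟩, by simp⟩
        rwa [Set.ncard_eq_toFinset_card _ hfin] at h
      · rintro ⟨⟨N, hN⟩, hG⟩
        rw [hG, Set.ncard_coe_finset]
        exact hN
    rw [h]
    exact MeasurableSet.iUnion fun N : {N : Finset ℕ // N.card = m} => meas_nbrSet y N.1

lemma measurable_deg (y : ℕ) :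
    Measurable (fun G : SimpleGraph ℕ => (G.neighborSet y).ncard) :=
  measurable_to_countable' fun m => meas_deg y m

lemma deepN_equiv {G G' : SimpleGraph ℕ} (φ : ℕ ≃ ℕ)
    (h : ∀ a b, G'.Adj (φ a) (φ b) ↔ G.Adj a b) :
    ∀ n v u, deepN G' n (φ v) (φ u) ↔ deepN G n v u := by
  intro n
  induction n with
  | zero => intro v u; exact Iff.rfl
  | succ n ih =>
    intro v u
    constructor
    · rintro ⟨w, hw, ha, hd⟩
      refine ⟨φ.symm w, ?_, ?_, ?_⟩
      · rintro rfl
        exact hw (by simp)
      · rw [← h, Equiv.apply_symm_apply]; exact ha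
      · rw [← ih, Equiv.apply_symm_apply]; exact hd
    · rintro ⟨w, hw, ha, hd⟩
      exact ⟨φ w, fun e => hw (φ.injective e), (h _ _).2 ha, (ih _ _).2 hd⟩

lemma deep_equiv {G G' : SimpleGraph ℕ} (φ : ℕ ≃ ℕ)
    (h : ∀ a b, G'.Adj (φ a) (φ b) ↔ G.Adj a b) (v u : ℕ) :
    Deep G' (φ v) (φ u) ↔ Deep G v u :=
  forall_congr' fun n => deepN_equiv φ h n v u

lemma deg_equiv {G G' : SimpleGraph ℕ} (φ : ℕ ≃ ℕ)
    (h : ∀ a b, G'.Adj (φ a) (φ b) ↔ G.Adj a b) (v : ℕ) :
    (G'.neighborSet (φ v)).ncard = (G.neighborSet v).ncard := by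
  have h1 : G'.neighborSet (φ v) = φ '' G.neighborSet v := by
    ext w
    simp only [SimpleGraph.mem_neighborSet, Set.mem_image]
    constructor
    · intro hw
      exact ⟨φ.symm w, by rw [← h, Equiv.apply_symm_apply]; exact hw, by simp⟩
    · rintro ⟨u, hu, rfl⟩
      exact (h _ _).2 hu
  rw [h1, Set.ncard_image_of_injective _ φ.injective]

lemma tsum_indicator (Q : ℕ → Prop) [DecidablePred Q] (hQ : {x | Q x}.Finite) :
    ∑' x, (if Q x then (1 : ℝ≥0∞) else 0) = ({x | Q x}.ncard : ℝ≥0∞) := by
  rw [tsum_eq_sum (s := hQ.toFinset)]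
  · rw [Finset.sum_congr rfl (g := fun _ => (1 : ℝ≥0∞))]
    · rw [Finset.sum_const, Set.ncard_eq_toFinset_card _ hQ]
      simp
    · intro x hx
      have : Q x := by simpa using hx
      rw [if_pos this]
  · intro x hx
    have : ¬ Q x := by simpa using hx
    rw [if_neg this]

section mtp

variable {Ω : Type} [MeasurableSpace Ω] {P : Measure Ω} (X : RandomTree P)

lemma all_of_root (hX : X.Unimodular) (Q : SimpleGraph ℕ → ℕ → Prop)
    (hQm : ∀ y, MeasurableSet {G : SimpleGraph ℕ | Q G y})
    (hQe : ∀ (G G' : SimpleGraph ℕ) (φ : ℕ ≃ ℕ), (∀ a b, G'.Adj (φ a) (φ b) ↔ G.Adj a b) →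
      ∀ y, Q G' (φ y) ↔ Q G y)
    (h : ∀ᵐ ω ∂P, Q (X.graph ω) (X.root ω)) : ∀ᵐ ω ∂P, ∀ x, Q (X.graph ω) x := by
  classical
  have hm : ∀ x y : ℕ, Measurable (fun G : SimpleGraph ℕ => if Q G y then (0 : ℝ≥0∞) else 1) :=
    fun x y => Measurable.ite (hQm y) measurable_const measurable_const
  have h1 := hX (fun G _ y => if Q G y then 0 else 1) hm (by
    intro G G' φ hφ x y
    simp only [hQe G G' φ hφ y])
  have h2 : ∫⁻ ω, ∑' x : ℕ, (if Q (X.graph ω) (X.root ω) then (0 : ℝ≥0∞) else 1) ∂P = 0 := by
    rw [lintegral_congr_ae (g := fun _ => 0)]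
    · simp
    · filter_upwards [h] with ω hω
      simp [hω]
  rw [h2, lintegral_eq_zero_iff] at h1
  · filter_upwards [h1] with ω hω x
    have h3 := ENNReal.tsum_eq_zero.1 hω x
    by_contra hx
    simp [hx] at h3
  · exact Measurable.tsum fun x => (hm x x).comp X.measurable_graph

end mtp

lemma deep_of_deg_two {G : SimpleGraph ℕ} (h : ∀ v, (G.neighborSet v).ncard = 2) :
    ∀ n v u, G.Adj v u → deepN G n v u := by
  intro n
  induction n with
  | zero => intro v u _; trivial
  | succ n ih =>
    intro v u huv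
    obtain ⟨a, b, hab, hs⟩ := Set.ncard_eq_two.1 (h u)
    have hv : v ∈ G.neighborSet u := huv.symm
    have ha : a ∈ G.neighborSet u := by rw [hs]; simp
    have hb : b ∈ G.neighborSet u := by rw [hs]; simp
    rw [hs] at hv
    rcases hv with rfl | hv
    · exact ⟨b, hab.symm, hb, ih _ _ hb⟩
    · have hv' : v = b := hv
      subst hv'
      exact ⟨a, hab, ha, ih _ _ ha⟩

theorem taskDens : TaskDens := by
  classical
  intro hC hM _ d hd Ω _ P _ X hX hroot
  have hgood : ∀ᵐ ω ∂P, Good d (X.graph ω) := by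
    have h1 := all_of_root X hX (fun G y => (G.neighborSet y).ncard ≤ d) (fun y => by
      have : {G : SimpleGraph ℕ | (G.neighborSet y).ncard ≤ d} =
        ⋃ m : Fin (d + 1), {G : SimpleGraph ℕ | (G.neighborSet y).ncard = m} := by
        ext G
        simp only [Set.mem_ofPred_eq, Set.mem_iUnion]
        constructor
        · intro h; exact ⟨⟨_, Nat.lt_succ_of_le h⟩, rfl⟩
        · rintro ⟨m, hm⟩; omega
      rw [this]
      exact MeasurableSet.iUnion fun m => meas_deg y m) (fun G G' φ hφ y => by
        rw [deg_equiv φ hφ y]) hroot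
    filter_upwards [h1] with ω hω
    exact ⟨X.isTree ω, fun v => ⟨X.locallyFinite ω v, hω v⟩⟩
  refine ⟨hgood, ?_⟩
  obtain ⟨-, hMdeep, hMnbr, -, -, -, -⟩ := hM
  -- the four functions
  set dg : Ω → ℝ := fun ω => (((X.graph ω).neighborSet (X.root ω)).ncard : ℝ) with hdg
  set nb : Ω → ℝ := fun ω => ((nbr (X.graph ω) (X.root ω)).card : ℝ) with hnb
  set e : Ω → ℝ := fun ω => if nbr (X.graph ω) (X.root ω) = ∅ then 1 else 0 with he
  set ii : Ω → ℝ := fun ω => (({u | (X.graph ω).Adj u (X.root ω) ∧
    Deep (X.graph ω) u (X.root ω) ∧ ¬ Deep (X.graph ω) (X.root ω) u}.ncard : ℕ) : ℝ) with hii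
  have hpair : Measurable fun ω => (X.graph ω, X.root ω) :=
    X.measurable_graph.prodMk X.measurable_root
  have hdgm : Measurable dg := by
    have h1 : Measurable fun q : SimpleGraph ℕ × ℕ => (q.1.neighborSet q.2).ncard :=
      measurable_from_prod_countable_left fun y => measurable_deg y
    exact (measurable_from_top (f := fun n : ℕ => (n : ℝ))).comp (h1.comp hpair)
  have hnbrm : Measurable fun ω => nbr (X.graph ω) (X.root ω) := by
    have h1 : Measurable fun q : SimpleGraph ℕ × ℕ => nbr q.1 q.2 :=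
      measurable_from_prod_countable_left fun y => measurable_to_countable' fun N => hMnbr y N
    exact h1.comp hpair
  have hnbm : Measurable nb :=
    (measurable_from_top (f := fun N : Finset ℕ => (N.card : ℝ))).comp hnbrm
  have hem : Measurable e :=
    (measurable_from_top (f := fun N : Finset ℕ => if N = ∅ then (1 : ℝ) else 0)).comp hnbrm
  have hsum : ∀ᵐ ω ∂P, dg ω = nb ω + e ω + ii ω := by
    filter_upwards [hgood] with ω hω
    have h5 := (hC d _ hω (X.root ω)).2.2.2.2
    simp only [hdg, hnb, he, hii, h5]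
    push_cast
    rfl
  have hiim : AEStronglyMeasurable ii P := by
    refine ((hdgm.sub hnbm).sub hem).aestronglyMeasurable.congr ?_
    filter_upwards [hsum] with ω hω
    show dg ω - nb ω - e ω = ii ω
    rw [hω]; ring
  have hii0 : ∀ ω, 0 ≤ ii ω := fun ω => Nat.cast_nonneg _
  have he0 : ∀ ω, 0 ≤ e ω := fun ω => by
    simp only [he]; split_ifs <;> norm_num
  have he1 : ∀ ω, e ω ≤ 1 := fun ω => by
    simp only [he]; split_ifs <;> norm_num
  -- mass transport
  have hmt : ∫ ω, ii ω ∂P = ∫ ω, e ω ∂P := by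
    rw [integral_eq_lintegral_of_nonneg_ae (Eventually.of_forall hii0) hiim,
      integral_eq_lintegral_of_nonneg_ae (Eventually.of_forall he0) hem.aestronglyMeasurable]
    congr 1
    have h1 := hX (fun G x y => if G.Adj x y ∧ Deep G x y ∧ ¬ Deep G y x then 1 else 0)
      (fun x y => Measurable.ite ((meas_adj x y).inter
        ((hMdeep x y).inter (hMdeep y x).compl)) measurable_const measurable_const) (by
        intro G G' φ hφ x y
        simp only [hφ x y, deep_equiv φ hφ])
    have h2 : ∫⁻ ω, ENNReal.ofReal (ii ω) ∂P = ∫⁻ ω, ∑' x, (if (X.graph ω).Adj x (X.root ω) ∧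
        Deep (X.graph ω) x (X.root ω) ∧ ¬ Deep (X.graph ω) (X.root ω) x then (1 : ℝ≥0∞) else 0) ∂P := by
      refine lintegral_congr_ae ?_
      filter_upwards [hgood] with ω hω
      rw [tsum_indicator]
      · simp only [hii]
        exact ENNReal.ofReal_natCast _
      · refine (hω.2 (X.root ω)).1.subset ?_
        intro u hu
        exact hu.1.symm
    have h3 : ∫⁻ ω, ENNReal.ofReal (e ω) ∂P = ∫⁻ ω, ∑' x, (if (X.graph ω).Adj (X.root ω) x ∧
        Deep (X.graph ω) (X.root ω) x ∧ ¬ Deep (X.graph ω) x (X.root ω) then (1 : ℝ≥0∞) else 0) ∂P := by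
      refine lintegral_congr_ae ?_
      filter_upwards [hgood] with ω hω
      rw [tsum_indicator]
      · have h4 := (hC d _ hω (X.root ω)).2.2.2.1
        rw [h4]
        simp only [he]
        split_ifs <;> simp
      · refine (hω.2 (X.root ω)).1.subset ?_
        intro u hu
        exact hu.1
    rw [h2, h3]
    exact h1.symm
  have hdr : (0 : ℝ) < d := by exact_mod_cast (by omega : 0 < d)
  have hnb0 : ∀ ω, 0 ≤ nb ω := fun ω => Nat.cast_nonneg _
  have hnb1 : ∀ᵐ ω ∂P, nb ω ≤ d * (1 - e ω) := by
    filter_upwards [hgood] with ω hω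
    simp only [hnb, he]
    by_cases h : nbr (X.graph ω) (X.root ω) = ∅
    · simp [h]
    · rw [if_neg h]
      have := (hC d _ hω (X.root ω)).2.2.1
      have h' : ((nbr (X.graph ω) (X.root ω)).card : ℝ) ≤ d := by exact_mod_cast this
      linarith
  have hei : Integrable e P := by
    refine Integrable.of_bound hem.aestronglyMeasurable 1 (Eventually.of_forall fun ω => ?_)
    rw [Real.norm_eq_abs, abs_of_nonneg (he0 ω)]
    exact he1 ω
  have hnbi : Integrable nb P := by
    refine Integrable.of_bound hnbm.aestronglyMeasurable d ?_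
    filter_upwards [hnb1] with ω hω
    rw [Real.norm_eq_abs, abs_of_nonneg (hnb0 ω)]
    have := he0 ω
    nlinarith
  have hdgi : Integrable dg P := by
    refine Integrable.of_bound hdgm.aestronglyMeasurable d ?_
    filter_upwards [hroot] with ω hω
    have h0 : (0 : ℝ) ≤ dg ω := Nat.cast_nonneg _
    rw [Real.norm_eq_abs, abs_of_nonneg h0]
    simp only [hdg]
    exact_mod_cast hω
  have hiii : Integrable ii P := by
    have h1 : Integrable (fun ω => dg ω - nb ω - e ω) P := (hdgi.sub hnbi).sub hei
    refine h1.congr ?_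
    filter_upwards [hsum] with ω hω
    rw [hω]; ring
  set q : ℝ := ∫ ω, e ω ∂P with hq
  set n : ℝ := ∫ ω, nb ω ∂P with hn
  have hD : ∫ ω, dg ω ∂P = n + 2 * q := by
    rw [integral_congr_ae hsum]
    have h1 : ∫ ω, (nb ω + e ω + ii ω) ∂P = n + q + ∫ ω, ii ω ∂P := by
      have h2 := integral_add (f := fun ω => nb ω + e ω) (hnbi.add hei) hiii
      have h3 := integral_add hnbi hei
      rw [h2, h3]
    rw [h1, hmt]
    ring
  have hq0 : 0 ≤ q := integral_nonneg he0
  have hone : ∫ ω, (d : ℝ) * (1 - e ω) ∂P = d * (1 - q) := by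
    rw [integral_const_mul, integral_sub (integrable_const _) hei]
    simp [hq]
  have hnle : n ≤ d * (1 - q) := by
    rw [← hone]
    exact integral_mono_ae hnbi (((integrable_const _).sub hei).const_mul _) hnb1
  have hgoal : n + 3 * q ≤ d := by
    rcases Nat.lt_or_ge 2 d with h3 | h3
    · have h3' : (3 : ℝ) ≤ d := by exact_mod_cast h3
      nlinarith
    · obtain rfl : d = 2 := by omega
      have hnb2 : ∀ᵐ ω ∂P, nb ω = (2 : ℕ) * (1 - e ω) := by
        filter_upwards [hgood] with ω hω
        simp only [hnb, he]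
        by_cases h : nbr (X.graph ω) (X.root ω) = ∅
        · simp [h]
        · rw [if_neg h]
          have h4 := (hC 2 _ hω (X.root ω)).2.2.1
          have h5 := ((hC 2 _ hω (X.root ω)).2.1).resolve_left h
          have h6 : (nbr (X.graph ω) (X.root ω)).card = 2 := by omega
          rw [h6]; ring
      have hn2 : n = (2 : ℕ) * (1 - q) := by
        rw [← hone, hn]
        exact integral_congr_ae hnb2
      have hD2 : ∫ ω, dg ω ∂P = 2 := by
        rw [hD, hn2]; push_cast; ring
      have hdg2 : ∀ᵐ ω ∂P, ((X.graph ω).neighborSet (X.root ω)).ncard = 2 := by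
        have h7 : ∫ ω, (2 - dg ω) ∂P = 0 := by
          rw [integral_sub (integrable_const _) hdgi, hD2]
          simp
        rw [integral_eq_zero_iff_of_nonneg_ae] at h7
        · filter_upwards [h7] with ω hω
          have h8 : dg ω = 2 := by
            have : 2 - dg ω = 0 := hω
            linarith
          simp only [hdg] at h8
          exact_mod_cast h8
        · filter_upwards [hroot] with ω hω
          have : dg ω ≤ 2 := by
            simp only [hdg]
            exact_mod_cast hω
          show (0 : ℝ) ≤ 2 - dg ω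
          linarith
        · exact (integrable_const _).sub hdgi
      have hall := all_of_root X hX (fun G y => (G.neighborSet y).ncard = 2)
        (fun y => meas_deg y 2) (fun G G' φ hφ y => by rw [deg_equiv φ hφ y]) hdg2
      have he2 : ∀ᵐ ω ∂P, e ω = 0 := by
        filter_upwards [hall, hgood] with ω hω hg
        simp only [he]
        rw [if_neg]
        intro h9
        obtain ⟨a, b, hab, hs⟩ := Set.ncard_eq_two.1 (hω (X.root ω))
        have ha : (X.graph ω).Adj (X.root ω) a := by
          have : a ∈ (X.graph ω).neighborSet (X.root ω) := by rw [hs]; simp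
          exact this
        have h10 : a ∈ nbr (X.graph ω) (X.root ω) :=
          ((hC 2 _ hg (X.root ω)).1 a).2 ⟨ha, fun n => deep_of_deg_two hω n _ _ ha,
            fun n => deep_of_deg_two hω n _ _ ha.symm⟩
        rw [h9] at h10
        simp at h10
      have hq2 : q = 0 := by
        rw [hq, integral_congr_ae he2]
        simp
      rw [hn2, hq2]
      norm_num
  rw [hD, sub_le_iff_le_add, mul_div_assoc', div_le_iff₀ hdr]
  have h11 : n / (d : ℝ) * d = n := div_mul_cancel₀ _ hdr.ne'
  nlinarith
end Pool.Agent.H424R3.LN.Dens
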