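import Pool.Agent.H424R3.LN.Stmts

set_option autoImplicit false

/-! Project H424-LINES (MP_f65c66_pr), task T8: equivariance of the conditional laws. -/

open MeasureTheory Filter
open scoped ENNReal Topology

namespace Pool.Agent.H424R3.LN.EquivT

lemma filter_congr' {α : Type*} (p : PMF α) {s t : Set α} (hst : s = t) (h : ∃ a ∈ s, a ∈ p.support)
    (h' : ∃ a ∈ t, a ∈ p.support) : p.filter s h = p.filter t h' := by
  subst hst
  rfl

lemma cond_equiv {d : ℕ} {μ : Finset ℕ → PMF (Finset ℕ)} (hμ : IsMu d μ) (φ : ℕ ≃ ℕ)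
    (N A : Finset ℕ) (p : ℕ) (s : Bool) :
    cond μ (N.map φ.toEmbedding) (φ p) s (A.map φ.toEmbedding) = cond μ N p s A := by
  have hmem : ∀ B : Finset ℕ, (φ p ∈ B.map φ.toEmbedding ↔ p ∈ B) := by
    intro B
    simp
  have hsupp : ∀ B : Finset ℕ, B.map φ.toEmbedding ∈ (μ (N.map φ.toEmbedding)).support ↔
      B ∈ (μ N).support := by
    intro B
    rw [PMF.mem_support_iff, PMF.mem_support_iff, hμ.equiv]
  have hsurj : Function.Surjective (fun B : Finset ℕ => B.map φ.toEmbedding) :=
    φ.finsetCongr.surjective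
  have hex : (∃ B ∈ {B : Finset ℕ | φ p ∈ B ↔ s = true}, B ∈ (μ (N.map φ.toEmbedding)).support) ↔
      ∃ B ∈ {B : Finset ℕ | p ∈ B ↔ s = true}, B ∈ (μ N).support := by
    rw [hsurj.exists]
    refine exists_congr fun B => ?_
    rw [hsupp]
    refine and_congr_left fun _ => ?_
    show (φ p ∈ B.map φ.toEmbedding ↔ s = true) ↔ (p ∈ B ↔ s = true)
    rw [hmem]
  unfold cond
  by_cases h : ∃ B ∈ {B : Finset ℕ | p ∈ B ↔ s = true}, B ∈ (μ N).support
  · rw [dif_pos h, dif_pos (hex.2 h), PMF.filter_apply, PMF.filter_apply]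
    have hind : ∀ B : Finset ℕ, ({B : Finset ℕ | φ p ∈ B ↔ s = true}).indicator
        (μ (N.map φ.toEmbedding)) (B.map φ.toEmbedding) =
        ({B : Finset ℕ | p ∈ B ↔ s = true}).indicator (μ N) B := by
      intro B
      by_cases hB : p ∈ B ↔ s = true
      · rw [Set.indicator_of_mem (show B.map φ.toEmbedding ∈ {B : Finset ℕ | φ p ∈ B ↔ s = true}
          from (hmem B).trans hB), Set.indicator_of_mem (show B ∈ {B : Finset ℕ | p ∈ B ↔ s = true}
          from hB), hμ.equiv]
      · rw [Set.indicator_of_notMem (show B.map φ.toEmbedding ∉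
          {B : Finset ℕ | φ p ∈ B ↔ s = true} from fun h0 => hB ((hmem B).symm.trans h0)),
          Set.indicator_of_notMem (show B ∉ {B : Finset ℕ | p ∈ B ↔ s = true} from hB)]
    rw [hind]
    congr 2
    rw [← φ.finsetCongr.tsum_eq]
    exact tsum_congr fun B => hind B
  · rw [dif_neg h, dif_neg (fun h0 => h (hex.1 h0)), hμ.equiv]

lemma dist_le_iso {G G' : SimpleGraph ℕ} (ψ : G ≃g G') (x y : ℕ) (h : G.Reachable x y) :
    G'.dist (ψ x) (ψ y) ≤ G.dist x y := by
  obtain ⟨p, hp⟩ := h.exists_walk_length_eq_dist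
  rw [← hp, ← SimpleGraph.Walk.length_map ψ.toHom p]
  exact SimpleGraph.dist_le _

lemma dist_iso {G G' : SimpleGraph ℕ} (ψ : G ≃g G') (x y : ℕ) :
    G'.dist (ψ x) (ψ y) = G.dist x y := by
  by_cases h : G.Reachable x y
  · refine le_antisymm (dist_le_iso ψ x y h) ?_
    have h1 := dist_le_iso ψ.symm (ψ x) (ψ y) (SimpleGraph.Iso.reachable_iff.2 h)
    simpa using h1
  · rw [SimpleGraph.dist_eq_zero_of_not_reachable h, SimpleGraph.dist_eq_zero_of_not_reachable]
    intro h0
    exact h (SimpleGraph.Iso.reachable_iff.1 h0)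

theorem taskEquiv : TaskEquiv := by
  intro d μ hμ
  refine ⟨fun φ N A p s => cond_equiv hμ φ N A p s, ?_⟩
  intro G G' φ hφ
  let ψ : G ≃g G' := ⟨φ, fun {a b} => hφ a b⟩
  have hdeepN : ∀ n v u, deepN G' n (φ v) (φ u) ↔ deepN G n v u := by
    intro n
    induction n with
    | zero => intro v u; exact Iff.rfl
    | succ n ih =>
      intro v u
      show (∃ w, w ≠ φ v ∧ G'.Adj (φ u) w ∧ deepN G' n (φ u) w) ↔
        ∃ w, w ≠ v ∧ G.Adj u w ∧ deepN G n u w
      rw [φ.surjective.exists]
      refine exists_congr fun w => ?_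
      rw [hφ, ih, φ.injective.ne_iff]
  have hdeep : ∀ v u, Deep G' (φ v) (φ u) ↔ Deep G v u := fun v u =>
    forall_congr' fun n => hdeepN n v u
  have hcore : ∀ v u, core G' (φ v) (φ u) ↔ core G v u := by
    intro v u
    unfold core
    rw [hφ, hdeep, hdeep]
  have himg : ∀ v, {u | core G' (φ v) u} = φ '' {u | core G v u} := by
    intro v
    ext u
    obtain ⟨w, rfl⟩ := φ.surjective u
    rw [φ.injective.mem_set_image]
    exact hcore v w
  refine ⟨?_, fun x y => dist_iso ψ x y, ?_, hdeep⟩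
  · intro v
    unfold nbr
    by_cases hf : {u | core G v u}.Finite
    · have hf' : {u | core G' (φ v) u}.Finite := by
        rw [himg]
        exact hf.image _
      rw [dif_pos hf, dif_pos hf']
      ext u
      obtain ⟨w, rfl⟩ := φ.surjective u
      rw [Set.Finite.mem_toFinset]
      simp only [Finset.mem_map_equiv, Equiv.symm_apply_apply, Set.Finite.mem_toFinset]
      exact hcore v w
    · have hf' : ¬ {u | core G' (φ v) u}.Finite := by
        rw [himg, Set.finite_image_iff φ.injective.injOn]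
        exact hf
      rw [dif_neg hf, dif_neg hf', Finset.map_empty]
  · intro d' hG
    refine ⟨(SimpleGraph.Iso.isTree_iff ψ).1 hG.1, ?_⟩
    intro v
    obtain ⟨w, rfl⟩ := φ.surjective v
    have h1 : G'.neighborSet (φ w) = φ '' G.neighborSet w := by
      ext u
      obtain ⟨z, rfl⟩ := φ.surjective u
      rw [φ.injective.mem_set_image, SimpleGraph.mem_neighborSet, SimpleGraph.mem_neighborSet, hφ]
    rw [h1, Set.finite_image_iff φ.injective.injOn, Set.ncard_image_of_injective _ φ.injective]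
    exact hG.2 w

end Pool.Agent.H424R3.LN.EquivT
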