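import Pool.Agent.H424R3.LN.Stmts

/-! Task `TaskMeas` of the project H424-LINES: measurability.  (helper676) -/

set_option autoImplicit false

open MeasureTheory Filter

namespace Pool.Agent.H424R3.LN.MeasNS

open Pool.Agent.H424R3.LN

instance finsetDiscrete : DiscreteMeasurableSpace (Finset ℕ) :=
  ⟨fun _ => MeasurableSpace.measurableSet_top⟩

theorem m_adj (x y : ℕ) : Measurable (fun G : SimpleGraph ℕ => G.Adj x y) :=
  measurableSet_setOfPred.mp (MeasurableSpace.measurableSet_generateFrom ⟨x, y, rfl⟩)

/-- there is a walk of length `n` from `x` to `y` -/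
def WN (G : SimpleGraph ℕ) : ℕ → ℕ → ℕ → Prop
  | 0, x, y => x = y
  | n + 1, x, y => ∃ z, G.Adj x z ∧ WN G n z y

theorem WN_iff (G : SimpleGraph ℕ) (n : ℕ) : ∀ x y, WN G n x y ↔ ∃ w : G.Walk x y, w.length = n := by
  induction n with
  | zero =>
    intro x y
    constructor
    · intro h
      have h' : x = y := h
      subst h'
      exact ⟨SimpleGraph.Walk.nil, rfl⟩
    · rintro ⟨w, hw⟩
      exact SimpleGraph.Walk.eq_of_length_eq_zero hw
  | succ n ih =>
    intro x y
    constructor
    · rintro ⟨z, hz, h⟩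
      obtain ⟨w, hw⟩ := (ih z y).mp h
      exact ⟨SimpleGraph.Walk.cons hz w, by rw [SimpleGraph.Walk.length_cons, hw]⟩
    · rintro ⟨w, hw⟩
      cases w with
      | nil => simp at hw
      | cons h w' =>
        rw [SimpleGraph.Walk.length_cons] at hw
        exact ⟨_, h, (ih _ _).mpr ⟨w', by omega⟩⟩

theorem m_WN (n : ℕ) : ∀ x y, Measurable (fun G : SimpleGraph ℕ => WN G n x y) := by
  induction n with
  | zero =>
    intro x y
    exact measurable_const
  | succ n ih =>
    intro x y
    exact Measurable.exists fun z => (m_adj x z).and (ih z y)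

theorem reach_iff (G : SimpleGraph ℕ) (x y : ℕ) : G.Reachable x y ↔ ∃ n, WN G n x y := by
  constructor
  · rintro ⟨w⟩
    exact ⟨w.length, (WN_iff G _ x y).mpr ⟨w, rfl⟩⟩
  · rintro ⟨n, h⟩
    obtain ⟨w, -⟩ := (WN_iff G _ x y).mp h
    exact ⟨w⟩

theorem m_reach (x y : ℕ) : Measurable (fun G : SimpleGraph ℕ => G.Reachable x y) := by
  simp only [reach_iff]
  exact Measurable.exists fun n => m_WN n x y

theorem dist_iff (G : SimpleGraph ℕ) (x y n : ℕ) : G.dist x y = n ↔
    (WN G n x y ∧ ∀ m, m < n → ¬ WN G m x y) ∨ (n = 0 ∧ ¬ G.Reachable x y) := by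
  constructor
  · rintro rfl
    by_cases h : G.Reachable x y
    · left
      refine ⟨(WN_iff G _ x y).mpr h.exists_walk_length_eq_dist, fun m hm hW => ?_⟩
      obtain ⟨w, hw⟩ := (WN_iff G _ x y).mp hW
      have := SimpleGraph.dist_le w
      omega
    · right
      exact ⟨SimpleGraph.dist_eq_zero_of_not_reachable h, h⟩
  · rintro (⟨h1, h2⟩ | ⟨rfl, h⟩)
    · obtain ⟨w, hw⟩ := (WN_iff G _ x y).mp h1
      have h3 := SimpleGraph.dist_le w
      have h4 : G.Reachable x y := ⟨w⟩
      by_contra hne
      exact h2 _ (by omega) ((WN_iff G _ x y).mpr h4.exists_walk_length_eq_dist)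
    · exact SimpleGraph.dist_eq_zero_of_not_reachable h

theorem m_dist_eq (x y n : ℕ) : Measurable (fun G : SimpleGraph ℕ => G.dist x y = n) := by
  simp only [dist_iff]
  refine Measurable.or (Measurable.and (m_WN n x y) ?_) (Measurable.and measurable_const
    (m_reach x y).not)
  exact Measurable.forall fun m => Measurable.imp measurable_const (m_WN m x y).not

theorem m_dist (x y : ℕ) : Measurable (fun G : SimpleGraph ℕ => G.dist x y) :=
  measurable_to_countable' fun n => (m_dist_eq x y n).setOf

theorem m_delete (v w : ℕ) :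
    Measurable (fun G : SimpleGraph ℕ => G.deleteEdges {s(v, w)}) := by
  apply measurable_generateFrom
  rintro _ ⟨x, y, rfl⟩
  have : (fun G : SimpleGraph ℕ => G.deleteEdges {s(v, w)}) ⁻¹' {G | G.Adj x y} =
      {G : SimpleGraph ℕ | G.Adj x y ∧ s(x, y) ∉ ({s(v, w)} : Set (Sym2 ℕ))} := by
    ext G
    exact SimpleGraph.deleteEdges_adj
  rw [this]
  exact (Measurable.and (m_adj x y) measurable_const).setOf

theorem m_isTree : Measurable (fun G : SimpleGraph ℕ => G.IsTree) := by
  have h : ∀ G : SimpleGraph ℕ, G.IsTree ↔ (∀ x y, G.Reachable x y) ∧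
      ∀ v w, G.Adj v w → ¬ (G.deleteEdges {s(v, w)}).Reachable v w := by
    intro G
    constructor
    · intro hG
      exact ⟨fun x y => hG.connected.preconnected x y,
        fun v w hvw => SimpleGraph.isBridge_iff.mp
          (SimpleGraph.isAcyclic_iff_forall_adj_isBridge.mp hG.isAcyclic hvw)⟩
    · rintro ⟨h1, h2⟩
      have hc : G.Connected := ⟨h1⟩
      exact ⟨hc, SimpleGraph.isAcyclic_iff_forall_adj_isBridge.mpr
        fun v w hvw => SimpleGraph.isBridge_iff.mpr (h2 v w hvw)⟩
  simp only [h]
  refine Measurable.and ?_ ?_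
  · exact Measurable.forall fun x => Measurable.forall fun y => m_reach x y
  · refine Measurable.forall fun v => Measurable.forall fun w => Measurable.imp (m_adj v w) ?_
    exact ((m_reach v w).comp (m_delete v w)).not

theorem m_good (d : ℕ) : Measurable (fun G : SimpleGraph ℕ => Good d G) := by
  have h : ∀ (G : SimpleGraph ℕ) (v : ℕ), ((G.neighborSet v).Finite ∧ (G.neighborSet v).ncard ≤ d) ↔
      ∃ N : Finset ℕ, N.card ≤ d ∧ ∀ u, (G.Adj v u ↔ u ∈ N) := by
    intro G v
    constructor
    · rintro ⟨h1, h2⟩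
      refine ⟨h1.toFinset, ?_, fun u => ?_⟩
      · rwa [← Set.ncard_eq_toFinset_card _ h1]
      · rw [Set.Finite.mem_toFinset, SimpleGraph.mem_neighborSet]
    · rintro ⟨N, h1, h2⟩
      have h3 : G.neighborSet v = (N : Set ℕ) := by
        ext u
        rw [SimpleGraph.mem_neighborSet, h2 u, Finset.mem_coe]
      rw [h3]
      exact ⟨N.finite_toSet, by rwa [Set.ncard_coe_finset]⟩
  unfold Good
  simp only [h]
  refine Measurable.and m_isTree (Measurable.forall fun v => Measurable.exists fun N =>
    Measurable.and measurable_const (Measurable.forall fun u => ?_))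
  exact Measurable.iff (m_adj v u) measurable_const

theorem m_deepN (n : ℕ) : ∀ v u, Measurable (fun G : SimpleGraph ℕ => deepN G n v u) := by
  induction n with
  | zero =>
    intro v u
    exact measurable_const
  | succ n ih =>
    intro v u
    exact Measurable.exists fun w => Measurable.and measurable_const
      (Measurable.and (m_adj u w) (ih u w))

theorem m_deep (v u : ℕ) : Measurable (fun G : SimpleGraph ℕ => Deep G v u) :=
  Measurable.forall fun n => m_deepN n v u

theorem m_core (v u : ℕ) : Measurable (fun G : SimpleGraph ℕ => core G v u) :=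
  Measurable.and (m_adj v u) (Measurable.and (m_deep v u) (m_deep u v))

theorem nbr_iff (G : SimpleGraph ℕ) (v : ℕ) (N : Finset ℕ) : nbr G v = N ↔
    (∀ u, (core G v u ↔ u ∈ N)) ∨ (N = ∅ ∧ ¬ ∃ M : Finset ℕ, ∀ u, (core G v u ↔ u ∈ M)) := by
  classical
  unfold nbr
  split_ifs with h
  · constructor
    · rintro rfl
      left
      intro u
      rw [Set.Finite.mem_toFinset]
      rfl
    · rintro (h1 | ⟨-, h2⟩)
      · ext u
        rw [Set.Finite.mem_toFinset, ← h1 u]
        rfl
      · exact absurd ⟨h.toFinset, fun u => by rw [Set.Finite.mem_toFinset]; rfl⟩ h2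
  · have h3 : ¬ ∃ M : Finset ℕ, ∀ u, (core G v u ↔ u ∈ M) := by
      rintro ⟨M, hM⟩
      apply h
      have : {u | core G v u} = (M : Set ℕ) := by
        ext u
        exact hM u
      rw [this]
      exact M.finite_toSet
    constructor
    · rintro rfl
      exact Or.inr ⟨rfl, h3⟩
    · rintro (h1 | ⟨h2, -⟩)
      · exact absurd ⟨N, h1⟩ h3
      · exact h2.symm

theorem m_nbr_eq (v : ℕ) (N : Finset ℕ) : Measurable (fun G : SimpleGraph ℕ => nbr G v = N) := by
  simp only [nbr_iff]
  have h1 : ∀ M : Finset ℕ, Measurable (fun G : SimpleGraph ℕ => ∀ u, (core G v u ↔ u ∈ M)) :=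
    fun M => Measurable.forall fun u => Measurable.iff (m_core v u) measurable_const
  exact Measurable.or (h1 N) (Measurable.and measurable_const (Measurable.exists h1).not)

theorem par_iff (G : SimpleGraph ℕ) (x v p : ℕ) : par G x v = p ↔
    ((G.Adj v p ∧ G.dist x p < G.dist x v) ∧
      ∀ q, q < p → ¬ (G.Adj v q ∧ G.dist x q < G.dist x v)) ∨
    (p = 0 ∧ ∀ q, ¬ (G.Adj v q ∧ G.dist x q < G.dist x v)) := by
  unfold par
  set S : Set ℕ := {p | G.Adj v p ∧ G.dist x p < G.dist x v} with hS
  have hmem : ∀ q, q ∈ S ↔ (G.Adj v q ∧ G.dist x q < G.dist x v) := fun _ => Iff.rfl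
  simp only [← hmem]
  constructor
  · rintro rfl
    rcases S.eq_empty_or_nonempty with h | h
    · right
      rw [h]
      exact ⟨Nat.sInf_empty, fun q hq => hq⟩
    · left
      exact ⟨Nat.sInf_mem h, fun q hq => Nat.notMem_of_lt_sInf hq⟩
  · rintro (⟨h1, h2⟩ | ⟨rfl, h2⟩)
    · apply le_antisymm (Nat.sInf_le h1)
      by_contra hlt
      rw [not_le] at hlt
      exact h2 _ hlt (Nat.sInf_mem ⟨p, h1⟩)
    · have : S = ∅ := Set.eq_empty_iff_forall_notMem.mpr h2
      rw [this]
      exact Nat.sInf_empty

theorem m_par_eq (x v p : ℕ) : Measurable (fun G : SimpleGraph ℕ => par G x v = p) := by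
  simp only [par_iff]
  have h1 : ∀ q, Measurable (fun G : SimpleGraph ℕ => (G.Adj v q ∧ G.dist x q < G.dist x v)) := by
    intro q
    refine Measurable.and (m_adj v q) ?_
    exact measurableSet_setOfPred.mp (measurableSet_lt (m_dist x q) (m_dist x v))
  refine Measurable.or (Measurable.and (h1 p) ?_) (Measurable.and measurable_const ?_)
  · exact Measurable.forall fun q => Measurable.imp measurable_const (h1 q).not
  · exact Measurable.forall fun q => (h1 q).not

theorem m_selN_eq (x : ℕ) (n : ℕ) : ∀ (v : ℕ) (A : Finset ℕ),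
    Measurable (fun q : SimpleGraph ℕ × (Idx → Finset ℕ) => selN q.1 x q.2 n v = A) := by
  have hU : ∀ (i : Idx) (A : Finset ℕ),
      Measurable (fun q : SimpleGraph ℕ × (Idx → Finset ℕ) => q.2 i = A) := by
    intro i A
    have h1 : Measurable (fun q : SimpleGraph ℕ × (Idx → Finset ℕ) => q.2 i) :=
      (measurable_pi_apply i).comp measurable_snd
    exact h1.eq_const A
  have hN : ∀ (v : ℕ) (N : Finset ℕ),
      Measurable (fun q : SimpleGraph ℕ × (Idx → Finset ℕ) => nbr q.1 v = N) :=
    fun v N => (m_nbr_eq v N).comp measurable_fst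
  have hP : ∀ (v p : ℕ),
      Measurable (fun q : SimpleGraph ℕ × (Idx → Finset ℕ) => par q.1 x v = p) :=
    fun v p => (m_par_eq x v p).comp measurable_fst
  induction n with
  | zero =>
    intro v A
    have h : ∀ q : SimpleGraph ℕ × (Idx → Finset ℕ), selN q.1 x q.2 0 v = A ↔
        ∃ N, nbr q.1 v = N ∧ q.2 (v, N, none) = A := by
      intro q
      constructor
      · intro h
        exact ⟨_, rfl, h⟩
      · rintro ⟨N, rfl, h⟩
        exact h
    simp only [h]
    exact Measurable.exists fun N => Measurable.and (hN v N) (hU _ A)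
  | succ n ih =>
    intro v A
    by_cases hv : v = x
    · have h : ∀ q : SimpleGraph ℕ × (Idx → Finset ℕ), selN q.1 x q.2 (n + 1) v = A ↔
          ∃ N, nbr q.1 v = N ∧ q.2 (v, N, none) = A := by
        intro q
        have h0 : selN q.1 x q.2 (n + 1) v = q.2 (v, nbr q.1 v, none) := by
          change q.2 (idx q.1 x (selN q.1 x q.2 n) v) = _
          unfold idx
          rw [if_pos hv]
        rw [h0]
        constructor
        · intro h
          exact ⟨_, rfl, h⟩
        · rintro ⟨N, rfl, h⟩
          exact h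
      simp only [h]
      exact Measurable.exists fun N => Measurable.and (hN v N) (hU _ A)
    · have h : ∀ q : SimpleGraph ℕ × (Idx → Finset ℕ), selN q.1 x q.2 (n + 1) v = A ↔
          ∃ N, nbr q.1 v = N ∧ ∃ p, par q.1 x v = p ∧ ∃ B, selN q.1 x q.2 n p = B ∧
            q.2 (v, N, some (p, decide (v ∈ B))) = A := by
        intro q
        have h0 : selN q.1 x q.2 (n + 1) v = q.2 (v, nbr q.1 v,
            some (par q.1 x v, decide (v ∈ selN q.1 x q.2 n (par q.1 x v)))) := by
          change q.2 (idx q.1 x (selN q.1 x q.2 n) v) = _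
          unfold idx
          rw [if_neg hv]
        rw [h0]
        constructor
        · intro h
          exact ⟨_, rfl, _, rfl, _, rfl, h⟩
        · rintro ⟨N, rfl, p, rfl, B, rfl, h⟩
          exact h
      simp only [h]
      exact Measurable.exists fun N => Measurable.and (hN v N) (Measurable.exists fun p =>
        Measurable.and (hP v p) (Measurable.exists fun B => Measurable.and (ih p B) (hU _ A)))

theorem m_sel (x v : ℕ) :
    Measurable (fun q : SimpleGraph ℕ × (Idx → Finset ℕ) => sel q.1 x q.2 v) := by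
  apply measurable_to_countable'
  intro A
  have h : ∀ q : SimpleGraph ℕ × (Idx → Finset ℕ), sel q.1 x q.2 v = A ↔
      ∃ n, q.1.dist x v = n ∧ selN q.1 x q.2 n v = A := by
    intro q
    constructor
    · intro h
      exact ⟨_, rfl, h⟩
    · rintro ⟨n, rfl, h⟩
      exact h
  have h2 : Measurable (fun q : SimpleGraph ℕ × (Idx → Finset ℕ) => sel q.1 x q.2 v = A) := by
    simp only [h]
    exact Measurable.exists fun n => Measurable.and ((m_dist_eq x v n).comp measurable_fst)
      (m_selN_eq x n v A)
  exact h2.setOf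

theorem taskMeas : TaskMeas := by
  refine ⟨fun d => (m_good d).setOf, fun v u => (m_deep v u).setOf,
    fun v N => (m_nbr_eq v N).setOf, fun x y n => (m_dist_eq x y n).setOf,
    fun x v p => (m_par_eq x v p).setOf, m_sel, fun x => ?_⟩
  apply measurable_generateFrom
  rintro _ ⟨a, b, rfl⟩
  have h1 : ∀ a b : ℕ,
      Measurable (fun q : SimpleGraph ℕ × (Idx → Finset ℕ) => b ∈ sel q.1 x q.2 a) := by
    intro a b
    have h2 : MeasurableSet {A : Finset ℕ | b ∈ A} := MeasurableSet.of_discrete
    exact measurableSet_setOfPred.mp (h2.preimage (m_sel x a))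
  exact (Measurable.and (measurable_const (a := a ≠ b)) (Measurable.and (h1 a b) (h1 b a))).setOf

end Pool.Agent.H424R3.LN.MeasNS
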