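import Pool.Agent.H424R3.LN.Stmts

/-!
Task `TaskMu` of the project H424-LINES.
-/

set_option autoImplicit false

open MeasureTheory Filter
open scoped ENNReal Topology

namespace Pool.Agent.H424R3.LN

namespace MuT

open Classical in
/-- The weights. -/
noncomputable def wt (d : ℕ) (N A : Finset ℕ) : ℝ≥0∞ :=
  if 2 ≤ N.card ∧ N.card ≤ d then
    (if A = ∅ then 1 - (N.card : ℝ≥0∞) / d else 0) +
      (if A ∈ N.powersetCard 2 then 2 / ((d : ℝ≥0∞) * ((N.card - 1 : ℕ) : ℝ≥0∞)) else 0)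
  else if A = ∅ then 1 else 0

theorem wt_zero {d : ℕ} {N A : Finset ℕ} (h : ¬ (A ⊆ N ∧ (A = ∅ ∨ A.card = 2))) :
    wt d N A = 0 := by
  unfold wt
  have h1 : A ≠ ∅ := by
    rintro rfl
    exact h ⟨Finset.empty_subset _, Or.inl rfl⟩
  have h2 : A ∉ N.powersetCard 2 := by
    intro h3
    rw [Finset.mem_powersetCard] at h3
    exact h ⟨h3.1, Or.inr h3.2⟩
  rw [if_neg h1, if_neg h2, if_neg h1]
  simp

theorem choose_eq (n : ℕ) : n.choose 2 * 2 = n * (n - 1) := by
  rw [Nat.choose_two_right, Nat.div_mul_cancel (Nat.even_mul_pred_self n).two_dvd]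

theorem card_div_le {n d : ℕ} (h : n ≤ d) : (n : ℝ≥0∞) / d ≤ 1 := by
  apply ENNReal.div_le_of_le_mul
  rw [one_mul]
  exact_mod_cast h

theorem wt_sum {d : ℕ} (hd : 2 ≤ d) (N : Finset ℕ) : ∑ A ∈ N.powerset, wt d N A = 1 := by
  classical
  unfold wt
  by_cases h : 2 ≤ N.card ∧ N.card ≤ d
  · simp only [if_pos h]
    rw [Finset.sum_add_distrib, Finset.sum_ite_eq' _ ∅ _, if_pos (Finset.empty_mem_powerset _),
      Finset.sum_ite_mem]
    have hinter : N.powerset ∩ N.powersetCard 2 = N.powersetCard 2 := by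
      apply Finset.inter_eq_right.2
      intro A hA
      rw [Finset.mem_powersetCard] at hA
      exact Finset.mem_powerset.2 hA.1
    rw [hinter, Finset.sum_const, Finset.card_powersetCard, nsmul_eq_mul]
    have hm0 : ((N.card - 1 : ℕ) : ℝ≥0∞) ≠ 0 := by
      have : N.card - 1 ≠ 0 := by omega
      exact_mod_cast this
    have hmt : ((N.card - 1 : ℕ) : ℝ≥0∞) ≠ ⊤ := ENNReal.natCast_ne_top _
    have h1 : ((N.card.choose 2 : ℕ) : ℝ≥0∞) * (2 / ((d : ℝ≥0∞) * ((N.card - 1 : ℕ) : ℝ≥0∞))) =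
        (N.card : ℝ≥0∞) / d := by
      rw [← mul_div_assoc]
      have h2 : ((N.card.choose 2 : ℕ) : ℝ≥0∞) * 2 =
          (N.card : ℝ≥0∞) * ((N.card - 1 : ℕ) : ℝ≥0∞) := by
        exact_mod_cast choose_eq N.card
      rw [h2]
      exact ENNReal.mul_div_mul_right _ _ hm0 hmt
    rw [h1]
    exact tsub_add_cancel_of_le (card_div_le h.2)
  · simp only [if_neg h]
    rw [Finset.sum_ite_eq' _ ∅ _, if_pos (Finset.empty_mem_powerset _)]

/-- The law. -/
noncomputable def mu (d : ℕ) (hd : 2 ≤ d) (N : Finset ℕ) : PMF (Finset ℕ) :=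
  PMF.ofFinset (wt d N) N.powerset (wt_sum hd N) (fun A hA => wt_zero (fun h => hA
    (Finset.mem_powerset.2 h.1)))

theorem mu_apply (d : ℕ) (hd : 2 ≤ d) (N A : Finset ℕ) : mu d hd N A = wt d N A := rfl

theorem wt_two {d : ℕ} {N A : Finset ℕ} (h : 2 ≤ N.card ∧ N.card ≤ d) (hA : A ⊆ N)
    (h2 : A.card = 2) : wt d N A = 2 / ((d : ℝ≥0∞) * ((N.card - 1 : ℕ) : ℝ≥0∞)) := by
  unfold wt
  rw [if_pos h, if_neg, if_pos, zero_add]
  · rw [Finset.mem_powersetCard]; exact ⟨hA, h2⟩
  · rintro rfl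
    simp at h2

end MuT

open MuT in
theorem taskMu : TaskMu := by
  classical
  intro d hd
  refine ⟨mu d hd, ?_, ?_, ?_, ?_⟩
  · intro N A hA
    by_contra h
    rw [PMF.mem_support_iff, mu_apply] at hA
    exact hA (wt_zero h)
  · intro N p h2 hle hp
    have hF : ∀ A : Finset ℕ, A ∉ (N.erase p).image (fun q => ({p, q} : Finset ℕ)) →
        ({A : Finset ℕ | p ∈ A}).indicator (mu d hd N) A = 0 := by
      intro A hA
      by_cases hpA : p ∈ A
      · rw [Set.indicator_of_mem (show A ∈ {A : Finset ℕ | p ∈ A} from hpA), mu_apply]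
        apply wt_zero
        rintro ⟨h3, h4⟩
        rcases h4 with rfl | h4
        · simp at hpA
        · rw [Finset.card_eq_two] at h4
          obtain ⟨x, y, hxy, rfl⟩ := h4
          apply hA
          rw [Finset.mem_image]
          rw [Finset.mem_insert, Finset.mem_singleton] at hpA
          rcases hpA with rfl | rfl
          · exact ⟨y, Finset.mem_erase.2 ⟨hxy.symm, h3 (by simp)⟩, rfl⟩
          · exact ⟨x, Finset.mem_erase.2 ⟨hxy, h3 (by simp)⟩, Finset.pair_comm _ _⟩
      · exact Set.indicator_of_notMem (show A ∉ {A : Finset ℕ | p ∈ A} from hpA) _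
    rw [tsum_eq_sum (s := (N.erase p).image (fun q => ({p, q} : Finset ℕ)))
      (fun A hA => hF A hA)]
    have hinj : Set.InjOn (fun q => ({p, q} : Finset ℕ)) ↑(N.erase p) := by
      intro a ha b hb hab
      rw [Finset.mem_coe, Finset.mem_erase] at ha hb
      have : a ∈ ({p, b} : Finset ℕ) := by
        have h3 : ({p, a} : Finset ℕ) = {p, b} := hab
        rw [← h3]; simp
      rw [Finset.mem_insert, Finset.mem_singleton] at this
      exact this.resolve_left ha.1
    rw [Finset.sum_image hinj]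
    have hterm : ∀ q ∈ N.erase p, ({A : Finset ℕ | p ∈ A}).indicator (mu d hd N) {p, q} =
        2 / ((d : ℝ≥0∞) * ((N.card - 1 : ℕ) : ℝ≥0∞)) := by
      intro q hq
      rw [Finset.mem_erase] at hq
      rw [Set.indicator_of_mem (show ({p, q} : Finset ℕ) ∈ {A : Finset ℕ | p ∈ A} by simp),
        mu_apply]
      apply wt_two ⟨h2, hle⟩
      · intro z hz
        rw [Finset.mem_insert, Finset.mem_singleton] at hz
        rcases hz with rfl | rfl
        · exact hp
        · exact hq.2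
      · exact Finset.card_pair hq.1.symm
    rw [Finset.sum_congr rfl hterm, Finset.sum_const, Finset.card_erase_of_mem hp, nsmul_eq_mul]
    have hm0 : ((N.card - 1 : ℕ) : ℝ≥0∞) ≠ 0 := by
      have : N.card - 1 ≠ 0 := by omega
      exact_mod_cast this
    have hmt : ((N.card - 1 : ℕ) : ℝ≥0∞) ≠ ⊤ := ENNReal.natCast_ne_top _
    rw [← mul_div_assoc, mul_comm, ENNReal.mul_div_mul_right _ _ hm0 hmt]
  · intro N h2 hle
    rw [mu_apply]
    unfold wt
    rw [if_pos ⟨h2, hle⟩, if_pos rfl, if_neg, add_zero]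
    rw [Finset.mem_powersetCard]
    simp
  · intro φ N A
    rw [mu_apply, mu_apply]
    unfold wt
    have e1 : (A.map φ.toEmbedding = ∅) = (A = ∅) := propext Finset.map_eq_empty
    have e2 : (A.map φ.toEmbedding ∈ (N.map φ.toEmbedding).powersetCard 2) =
        (A ∈ N.powersetCard 2) := by
      rw [Finset.mem_powersetCard, Finset.mem_powersetCard, Finset.map_subset_map,
        Finset.card_map]
    simp only [e1, e2, Finset.card_map]

end Pool.Agent.H424R3.LN
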