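import Pool.Agent.H424R3.LN.Stmts

set_option autoImplicit false

open MeasureTheory Filter
open scoped ENNReal Topology

namespace Pool.Agent.H424R3.LN.Swap

/-- The mass of the conditioning event. -/
noncomputable def mass (μ : Finset ℕ → PMF (Finset ℕ)) (N : Finset ℕ) (p : ℕ) (s : Bool) :
    ℝ≥0∞ :=
  ∑' A, ({A : Finset ℕ | p ∈ A ↔ s = true}).indicator (μ N) A

lemma mass_add (μ : Finset ℕ → PMF (Finset ℕ)) (N : Finset ℕ) (p : ℕ) :
    mass μ N p true + mass μ N p false = 1 := by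
  unfold mass
  rw [← ENNReal.tsum_add, ← (μ N).tsum_coe]
  congr 1
  funext A
  by_cases h : p ∈ A <;> simp [h, Set.indicator]

lemma mass_true_mem {d : ℕ} {μ : Finset ℕ → PMF (Finset ℕ)} (hμ : IsMu d μ) {N : Finset ℕ}
    {p : ℕ} (h2 : 2 ≤ N.card) (hd : N.card ≤ d) (hp : p ∈ N) :
    mass μ N p true = 2 / (d : ℝ≥0∞) := by
  unfold mass
  rw [← hμ.edge N p h2 hd hp]
  simp

lemma mass_true_not_mem {d : ℕ} {μ : Finset ℕ → PMF (Finset ℕ)} (hμ : IsMu d μ) {N : Finset ℕ}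
    {p : ℕ} (hp : p ∉ N) : mass μ N p true = 0 := by
  unfold mass
  rw [ENNReal.tsum_eq_zero]
  intro A
  rw [Set.indicator_apply_eq_zero]
  intro hA
  by_contra hne
  have hA' : p ∈ A := by simpa using hA
  have := (hμ.supp N A ((PMF.mem_support_iff _ _).2 hne)).1
  exact hp (this hA')

lemma mass_true_eq {d : ℕ} {μ : Finset ℕ → PMF (Finset ℕ)} (hμ : IsMu d μ)
    {N M : Finset ℕ} {x y : ℕ} (hN : N = ∅ ∨ 2 ≤ N.card) (hM : M = ∅ ∨ 2 ≤ M.card)
    (hNd : N.card ≤ d) (hMd : M.card ≤ d) (hxy : y ∈ N ↔ x ∈ M) :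
    mass μ N y true = mass μ M x true := by
  by_cases hy : y ∈ N
  · have hx := hxy.1 hy
    have hN2 : 2 ≤ N.card := by
      rcases hN with h | h
      · simp [h] at hy
      · exact h
    have hM2 : 2 ≤ M.card := by
      rcases hM with h | h
      · simp [h] at hx
      · exact h
    rw [mass_true_mem hμ hN2 hNd hy, mass_true_mem hμ hM2 hMd hx]
  · have hx : x ∉ M := fun h => hy (hxy.2 h)
    rw [mass_true_not_mem hμ hy, mass_true_not_mem hμ hx]

lemma mass_eq {d : ℕ} {μ : Finset ℕ → PMF (Finset ℕ)} (hμ : IsMu d μ)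
    {N M : Finset ℕ} {x y : ℕ} (hN : N = ∅ ∨ 2 ≤ N.card) (hM : M = ∅ ∨ 2 ≤ M.card)
    (hNd : N.card ≤ d) (hMd : M.card ≤ d) (hxy : y ∈ N ↔ x ∈ M) (s : Bool) :
    mass μ N y s = mass μ M x s := by
  have ht := mass_true_eq hμ hN hM hNd hMd hxy
  cases s
  · have h1 := mass_add μ N y
    have h2 := mass_add μ M x
    rw [ht] at h1
    have hfin : mass μ M x true ≠ ⊤ := by
      intro h
      rw [h, top_add] at h2
      exact ENNReal.top_ne_one h2
    exact (ENNReal.add_right_inj hfin).1 (h1.trans h2.symm)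
  · exact ht

lemma cond_of_zero {μ : Finset ℕ → PMF (Finset ℕ)} {N : Finset ℕ} {p : ℕ} {s : Bool}
    {A : Finset ℕ} (h : μ N A = 0) : cond μ N p s A = 0 := by
  unfold cond
  split_ifs with hex
  · rw [PMF.filter_apply]
    simp [Set.indicator, h]
  · exact h

lemma cond_apply {μ : Finset ℕ → PMF (Finset ℕ)} {N : Finset ℕ} {p : ℕ} {s : Bool}
    (h : mass μ N p s ≠ 0) (A : Finset ℕ) :
    cond μ N p s A = ({A : Finset ℕ | p ∈ A ↔ s = true}).indicator (μ N) A *
      (mass μ N p s)⁻¹ := by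
  have hex : ∃ A ∈ {A : Finset ℕ | p ∈ A ↔ s = true}, A ∈ (μ N).support := by
    by_contra hno
    push Not at hno
    apply h
    unfold mass
    rw [ENNReal.tsum_eq_zero]
    intro A
    rw [Set.indicator_apply_eq_zero]
    intro hA
    by_contra hne
    exact hno A hA ((PMF.mem_support_iff _ _).2 hne)
  unfold cond
  rw [dif_pos hex, PMF.filter_apply]
  rfl

lemma mass_ne_zero {μ : Finset ℕ → PMF (Finset ℕ)} {N : Finset ℕ} {p : ℕ}
    {A : Finset ℕ} (h : μ N A ≠ 0) : mass μ N p (decide (p ∈ A)) ≠ 0 := by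
  intro h0
  unfold mass at h0
  rw [ENNReal.tsum_eq_zero] at h0
  have := h0 A
  rw [Set.indicator_apply_eq_zero] at this
  exact h (this (by simp))

theorem taskSwap : TaskSwap := by
  intro d μ hμ N M x y hN hM hNd hMd hxy A B
  by_cases hA : μ N A = 0
  · rw [hA, cond_of_zero hA]; simp
  by_cases hB : μ M B = 0
  · rw [hB, cond_of_zero hB]; simp
  have hmA : mass μ N y (decide (y ∈ A)) ≠ 0 := mass_ne_zero hA
  have hmB : mass μ M x (decide (x ∈ B)) ≠ 0 := mass_ne_zero hB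
  have e1 := mass_eq hμ hN hM hNd hMd hxy (decide (y ∈ A))
  have e2 := mass_eq hμ hN hM hNd hMd hxy (decide (x ∈ B))
  rw [cond_apply (e1 ▸ hmA) B, cond_apply (e2 ▸ hmB) A]
  by_cases hyA : y ∈ A <;> by_cases hxB : x ∈ B
  · simp only [hyA, hxB, decide_true, Set.indicator, Set.mem_ofPred_eq, iff_self, if_true] at e1 ⊢
    rw [e1]; ring
  · simp [hyA, hxB, Set.indicator]
  · simp [hyA, hxB, Set.indicator]
  · simp only [hyA, hxB, decide_false, Set.indicator, Set.mem_ofPred_eq, Bool.false_eq_true,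
      iff_self, if_true] at e1 ⊢
    rw [e1]; ring

end Pool.Agent.H424R3.LN.Swap
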