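import Mathlib
import Pool.Agent.H424R3.LN.Stmts

set_option autoImplicit false

namespace Pool.Agent.H424R3.LN.TreeFile

open SimpleGraph Set

variable {G : SimpleGraph ℕ}

theorem dist_le_add_one (hG : G.IsTree) {u v : ℕ} (x : ℕ) (h : G.Adj u v) :
    G.dist x v ≤ G.dist x u + 1 := by
  have h1 := hG.connected.dist_triangle (u := x) (v := u) (w := v)
  have h2 : G.dist u v = 1 := SimpleGraph.dist_eq_one_iff_adj.2 h
  rw [h2] at h1
  exact h1

theorem parent_unique (hG : G.IsTree) {x v p₁ p₂ : ℕ} (h₁ : G.Adj v p₁) (h₂ : G.Adj v p₂)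
    (d₁ : G.dist x p₁ < G.dist x v) (d₂ : G.dist x p₂ < G.dist x v) : p₁ = p₂ := by
  obtain ⟨w₁, hw₁⟩ := hG.connected.exists_walk_length_eq_dist x p₁
  obtain ⟨w₂, hw₂⟩ := hG.connected.exists_walk_length_eq_dist x p₂
  have e₁ : (w₁.concat h₁.symm).length = G.dist x v := by
    rw [Walk.length_concat, hw₁]
    have := dist_le_add_one hG x h₁.symm
    omega
  have e₂ : (w₂.concat h₂.symm).length = G.dist x v := by
    rw [Walk.length_concat, hw₂]
    have := dist_le_add_one hG x h₂.symm
    omega
  have i₁ := Walk.isPath_of_length_eq_dist _ e₁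
  have i₂ := Walk.isPath_of_length_eq_dist _ e₂
  have hu := hG.IsAcyclic.path_unique ⟨_, i₁⟩ ⟨_, i₂⟩
  have hw : w₁.concat h₁.symm = w₂.concat h₂.symm := congrArg Subtype.val hu
  have := congrArg Walk.penultimate hw
  rwa [Walk.penultimate_concat, Walk.penultimate_concat] at this

theorem exists_closer (hG : G.IsTree) {x v : ℕ} (h : v ≠ x) :
    ∃ p, G.Adj v p ∧ G.dist x p < G.dist x v := by
  obtain ⟨w, hw⟩ := hG.connected.exists_walk_length_eq_dist v x
  cases w with
  | nil => exact absurd rfl h
  | cons hadj w' =>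
    rename_i p
    refine ⟨p, hadj, ?_⟩
    have h1 : G.dist p x ≤ w'.length := SimpleGraph.dist_le w'
    rw [Walk.length_cons] at hw
    rw [SimpleGraph.dist_comm (u := x) (v := p), SimpleGraph.dist_comm (u := x) (v := v)]
    omega

theorem par_spec (hG : G.IsTree) {x v : ℕ} (h : v ≠ x) :
    G.Adj v (par G x v) ∧ G.dist x (par G x v) < G.dist x v := by
  have hne : {p | G.Adj v p ∧ G.dist x p < G.dist x v}.Nonempty := exists_closer hG h
  exact Nat.sInf_mem hne

theorem ne_of_dist_lt {x v : ℕ} {p : ℕ} (h : G.dist x p < G.dist x v) : v ≠ x := by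
  rintro rfl
  rw [SimpleGraph.dist_self] at h
  exact absurd h (Nat.not_lt_zero _)

theorem eq_par (hG : G.IsTree) {x v p : ℕ} (h : G.Adj v p) (hd : G.dist x p < G.dist x v) :
    p = par G x v := by
  have := par_spec hG (ne_of_dist_lt hd)
  exact parent_unique hG h this.1 hd this.2

theorem taskTree : TaskTree := by
  intro G hG
  refine ⟨?_, ?_, ?_, ?_, ?_⟩
  · intro x v hv
    have h := par_spec hG hv
    refine ⟨h.1, ?_, fun p hp hd => eq_par hG hp hd⟩
    have := dist_le_add_one hG x h.1.symm
    omega
  · intro x u v huv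
    have hne := hG.dist_ne_of_adj x huv
    rcases lt_or_gt_of_ne hne with h | h
    · exact Or.inl ⟨ne_of_dist_lt h, eq_par hG huv.symm h⟩
    · exact Or.inr ⟨ne_of_dist_lt h, eq_par hG huv h⟩
  · intro x y v hxy hvx hvy
    have hne := hG.dist_ne_of_adj v hxy
    have hx := par_spec hG hvx
    have hy := par_spec hG hvy
    have key : ∀ a b : ℕ, G.Adj a b → v ≠ a → G.dist v a < G.dist v b →
        par G a v = par G b v := by
      intro a b hab hva hlt
      have ha := par_spec hG hva
      apply eq_par hG ha.1
      have h1 : G.dist b (par G a v) ≤ G.dist a (par G a v) + 1 := by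
        have := dist_le_add_one hG (par G a v) hab
        rw [SimpleGraph.dist_comm (u := b), SimpleGraph.dist_comm (u := a)]
        exact this
      have h2 := ha.2
      rw [SimpleGraph.dist_comm (u := a) (v := v)] at h2
      rw [SimpleGraph.dist_comm (u := b) (v := v)]
      omega
    rcases lt_or_gt_of_ne hne with h | h
    · exact (key x y hxy hvx h).symm
    · exact key y x hxy.symm hvy h
  · intro x y hxy
    symm
    apply eq_par hG hxy.symm
    rw [SimpleGraph.dist_self, SimpleGraph.dist_eq_one_iff_adj.2 hxy]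
    exact one_pos
  · intro hfin x n
    induction n with
    | zero =>
      apply (Set.finite_singleton x).subset
      intro v hv
      have h0 : G.dist x v = 0 := Nat.le_zero.1 hv
      have := (hG.connected x v).dist_eq_zero_iff.1 h0
      exact this.symm
    | succ n ih =>
      have : {v | G.dist x v ≤ n + 1} ⊆ {x} ∪ ⋃ u ∈ {v | G.dist x v ≤ n}, G.neighborSet u := by
        intro v hv
        by_cases hvx : v = x
        · left; exact hvx
        · right
          have h := par_spec hG hvx
          have hv' : G.dist x v ≤ n + 1 := hv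
          simp only [Set.mem_iUnion, Set.mem_setOf_eq]
          refine ⟨par G x v, by omega, ?_⟩
          exact h.1.symm
      apply Set.Finite.subset _ this
      apply Set.Finite.union (Set.finite_singleton x)
      exact ih.biUnion fun u _ => hfin u

end Pool.Agent.H424R3.LN.TreeFile

namespace Pool.Agent.H424R3.LN

theorem taskTree : TaskTree := TreeFile.taskTree

end Pool.Agent.H424R3.LN
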